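import Mathlib
import Pool.Agent.Lib.MP_89bcae_ag.Zp.Ver

/-!
# The functions on the special fibre, in general
-/

attribute [local instance 100000] Pool.Agent.Lib.MP_89bcae_ag.Brt.tffFields
attribute [local instance 100000] Pool.Agent.Lib.MP_89bcae_ag.Wt.ifrNF Pool.Agent.Lib.MP_89bcae_ag.Wt.iddNF

open Polynomial

open scoped Classical

namespace Pool.Agent.Lib.MP_89bcae_ag.Zu

open Pool.Agent.Lib.MP_89bcae_ag.Bra

private lemma u1_fixed {F : Type} [Field F] {ℓ : ℕ} {ζ : F}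
    (hζ : IsPrimitiveRoot ζ ℓ) (P : (RatFunc F)[X]) (hP : P.Monic) (hdeg : P.natDegree = ℓ)
    (r : (RatFunc F)[X]) (hr : ∀ m, ℓ ≤ m → r.coeff m = 0)
    (h : AdjoinRoot.mk P (r.comp (C (algebraMap F (RatFunc F) ζ) * X)) = AdjoinRoot.mk P r) :
    r = C (r.coeff 0) := by
  have h1 : P ∣ r.comp (C (algebraMap F (RatFunc F) ζ) * X) - r := by
    rw [← AdjoinRoot.mk_eq_zero, map_sub, h, sub_self]
  have h2 : r.comp (C (algebraMap F (RatFunc F) ζ) * X) - r = 0 := by
    refine Polynomial.eq_zero_of_dvd_of_degree_lt h1 ?_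
    rw [Polynomial.degree_eq_natDegree hP.ne_zero, hdeg, degree_lt_iff_coeff_zero]
    intro m hm
    rw [coeff_sub, comp_C_mul_X_coeff, hr m hm, zero_mul, sub_zero]
  ext n
  rw [coeff_C]
  split_ifs with hn
  · rw [hn]
  · rcases Nat.lt_or_ge n ℓ with hlt | hge
    · have h3 := congrArg (fun p => coeff p n) h2
      simp only [coeff_sub, comp_C_mul_X_coeff, coeff_zero] at h3
      have h4 : r.coeff n * ((algebraMap F (RatFunc F) ζ) ^ n - 1) = 0 := by
        rw [← h3]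
        ring
      rcases mul_eq_zero.mp h4 with h5 | h5
      · exact h5
      · exfalso
        have h6 : algebraMap F (RatFunc F) (ζ ^ n) = algebraMap F (RatFunc F) 1 := by
          rw [map_pow, map_one]
          exact sub_eq_zero.mp h5
        have h7 := (algebraMap F (RatFunc F)).injective h6
        have h8 := hζ.dvd_of_pow_eq_one n h7
        exact absurd (Nat.le_of_dvd (Nat.pos_of_ne_zero hn) h8) (not_le.mpr hlt)
    · exact hr n hge

/-- Existence of the fibre, if `g` is not an `ℓ`-th power. -/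
theorem exists_fib_of {F : Type} [Field F] {ℓ : ℕ} (hℓ : ℓ.Prime) {ζ : F} (hζ : IsPrimitiveRoot ζ ℓ)
    (g : F[X]) (hg : ∀ b : RatFunc F, b ^ ℓ ≠ algebraMap F[X] (RatFunc F) g) (h0 : g ≠ 0) :
    ∃ (κ : Type) (_ : Field κ) (_ : Algebra F κ) (x y : κ), Fib ℓ ζ g x y := by
  obtain ⟨P, hPdef⟩ : ∃ P : (RatFunc F)[X],
      P = X ^ ℓ - C (algebraMap F[X] (RatFunc F) g) := ⟨_, rfl⟩
  have hirr : Irreducible P := by
    rw [hPdef]
    exact X_pow_sub_C_irreducible_of_prime hℓ hg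
  have hmonic : P.Monic := by
    rw [hPdef]
    exact monic_X_pow_sub_C _ hℓ.ne_zero
  have hdeg : P.natDegree = ℓ := by
    rw [hPdef]
    exact natDegree_X_pow_sub_C
  have _ : Fact (Irreducible P) := ⟨hirr⟩
  have hfin : FiniteDimensional (RatFunc F) (AdjoinRoot P) :=
    (AdjoinRoot.powerBasis hirr.ne_zero).finite
  have hev : ∀ {A : Type} [CommRing A] (φ : RatFunc F →+* A) (a : A),
      P.eval₂ φ a = a ^ ℓ - φ (algebraMap F[X] (RatFunc F) g) := by
    intro A _ φ a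
    rw [hPdef, eval₂_sub, eval₂_pow, eval₂_X, eval₂_C]
  have hyℓ : AdjoinRoot.root P ^ ℓ =
      algebraMap (RatFunc F) (AdjoinRoot P) (algebraMap F[X] (RatFunc F) g) := by
    have h := AdjoinRoot.eval₂_root P
    rw [hev, sub_eq_zero] at h
    exact h
  have hpoly : ∀ p : F[X], aeval (algebraMap (RatFunc F) (AdjoinRoot P) RatFunc.X) p =
      algebraMap (RatFunc F) (AdjoinRoot P) (algebraMap F[X] (RatFunc F) p) := by
    intro p
    rw [aeval_algebraMap_apply, ← RatFunc.algebraMap_X, aeval_algebraMap_apply, aeval_X_left_apply]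
  have hinj : Function.Injective (algebraMap F[X] (RatFunc F)) :=
    FaithfulSMul.algebraMap_injective F[X] (RatFunc F)
  have hinj2 : Function.Injective (algebraMap (RatFunc F) (AdjoinRoot P)) :=
    (algebraMap (RatFunc F) (AdjoinRoot P)).injective
  refine ⟨AdjoinRoot P, inferInstance, inferInstance,
    algebraMap (RatFunc F) (AdjoinRoot P) RatFunc.X, AdjoinRoot.root P, ?_, ?_, ?_, ?_⟩
  · intro p hp
    rw [hpoly] at hp
    exact hinj (hinj2 (by rw [hp, map_zero, map_zero]))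
  · rw [hpoly]
    exact hyℓ
  · intro hy
    rw [hy, zero_pow hℓ.ne_zero] at hyℓ
    exact h0 (hinj (hinj2 (by rw [← hyℓ, map_zero, map_zero])))
  · obtain ⟨ζ', hζ'⟩ : ∃ ζ' : RatFunc F, ζ' = algebraMap F (RatFunc F) ζ := ⟨_, rfl⟩
    obtain ⟨ρ, hρ⟩ : ∃ ρ : AdjoinRoot P →ₐ[RatFunc F] AdjoinRoot P,
        ρ (AdjoinRoot.root P) = algebraMap (RatFunc F) (AdjoinRoot P) ζ' * AdjoinRoot.root P := by
      refine ⟨AdjoinRoot.liftAlgHom P (Algebra.ofId _ _)
        (algebraMap (RatFunc F) (AdjoinRoot P) ζ' * AdjoinRoot.root P) ?_,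
        AdjoinRoot.liftAlgHom_root _ _ _ _⟩
      have hz : ζ' ^ ℓ = 1 := by rw [hζ', ← map_pow, hζ.pow_eq_one, map_one]
      rw [hev, mul_pow, ← map_pow, hz, map_one, one_mul, hyℓ]
      exact sub_self _
    have hρmk : ∀ r : (RatFunc F)[X], ρ (AdjoinRoot.mk P r) =
        AdjoinRoot.mk P (r.comp (C ζ' * X)) := by
      intro r
      rw [← AdjoinRoot.aeval_eq, ← aeval_algHom_apply, hρ, ← AdjoinRoot.aeval_eq, aeval_comp,
        map_mul, aeval_C, aeval_X]
    refine ⟨(AlgEquiv.ofBijective ρ ρ.bijective).restrictScalars F, ?_, ?_, ?_⟩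
    · exact ρ.commutes _
    · show ρ (AdjoinRoot.root P) = _
      rw [hρ, hζ']
      rfl
    · intro z hz
      have hz' : ρ z = z := hz
      obtain ⟨r, hr⟩ : ∃ r : (RatFunc F)[X], r = AdjoinRoot.modByMonicHom hmonic z := ⟨_, rfl⟩
      have h1 : AdjoinRoot.mk P r = z := by
        rw [hr]
        exact AdjoinRoot.mk_leftInverse hmonic z
      have h2 : ∀ m, ℓ ≤ m → r.coeff m = 0 := by
        rw [← degree_lt_iff_coeff_zero]
        obtain ⟨f, rfl⟩ := AdjoinRoot.mk_surjective z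
        rw [hr, AdjoinRoot.modByMonicHom_mk]
        refine (degree_modByMonic_lt f hmonic).trans_eq ?_
        rw [degree_eq_natDegree hmonic.ne_zero, hdeg]
      rw [← h1, hρmk, hζ'] at hz'
      have h3 := u1_fixed hζ P hmonic hdeg r h2 hz'
      refine ⟨(r.coeff 0).num, (r.coeff 0).denom, RatFunc.denom_ne_zero _, ?_⟩
      rw [hpoly, hpoly, ← map_div₀, RatFunc.num_div_denom, ← h1]
      nth_rewrite 1 [h3]
      exact AdjoinRoot.mk_C _


/-- The point `(x, y)` of the curve `y ^ ℓ = ∏ (x - r) ^ (V r)` over the field `κ`, with `x` transcendental over `F`, and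
the property of Kummer theory. -/
structure FibU (ℓ : ℕ) {F κ : Type} [Field F] [Field κ] [Algebra F κ] (R : Finset F) (V : F → ℕ) (x y : κ) :
    Prop where
  inj : ∀ p : F[X], aeval x p = 0 → p = 0
  eq : y ^ ℓ = ∏ r ∈ R, (x - algebraMap F κ r) ^ V r
  ne : y ≠ 0
  kum : ∀ (G : F → ℤ) (n : ℕ), n.Coprime ℓ → ∀ w : κ,
    (∏ r ∈ R, (x - algebraMap F κ r) ^ G r) ^ n = w ^ ℓ → ∃ c : ℤ, ∀ r ∈ R, (ℓ : ℤ) ∣ G r - c * V r

/-- Existence. -/
theorem exists_fibU {F : Type} [Field F] {ℓ : ℕ} (hℓ : ℓ.Prime) {ζ : F} (hζ : IsPrimitiveRoot ζ ℓ)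
    (R : Finset F) (V : F → ℕ) :
    ∃ (κ : Type) (_ : Field κ) (_ : Algebra F κ) (x y : κ), FibU ℓ R V x y := by
  have hinj : Function.Injective (algebraMap F[X] (RatFunc F)) :=
    FaithfulSMul.algebraMap_injective F[X] (RatFunc F)
  have hx : ∀ p : F[X], aeval (RatFunc.X : RatFunc F) p = algebraMap F[X] (RatFunc F) p := by
    intro p
    rw [← RatFunc.algebraMap_X, aeval_algebraMap_apply, aeval_X_left_apply]
  have hinj' : Function.Injective (aeval (RatFunc.X : RatFunc F) : F[X] →ₐ[F] RatFunc F) := by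
    intro p q hpq
    rw [hx, hx] at hpq
    exact hinj hpq
  have hX : ∀ r : F, (RatFunc.X : RatFunc F) - algebraMap F (RatFunc F) r ≠ 0 := by
    intro r h0
    have h1 : aeval (RatFunc.X : RatFunc F) (X - C r) = 0 := by rw [map_sub, aeval_X, aeval_C, h0]
    rw [← map_zero (aeval (RatFunc.X : RatFunc F) : F[X] →ₐ[F] RatFunc F)] at h1
    exact X_sub_C_ne_zero r (hinj' h1)
  by_cases hV : ∀ r ∈ R, ℓ ∣ V r
  · -- the polynomial is a power
    refine ⟨RatFunc F, inferInstance, inferInstance, RatFunc.X,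
      ∏ r ∈ R, ((RatFunc.X : RatFunc F) - algebraMap F (RatFunc F) r) ^ (V r / ℓ), ?_, ?_, ?_, ?_⟩
    · intro p hp
      rw [hx] at hp
      exact hinj (by rw [hp, map_zero])
    · rw [← Finset.prod_pow]
      refine Finset.prod_congr rfl fun r hr => ?_
      rw [← pow_mul, Nat.div_mul_cancel (hV r hr)]
    · exact Finset.prod_ne_zero_iff.2 fun r _ => pow_ne_zero _ (hX r)
    · intro G n hn w hw
      refine ⟨0, fun r hr => ?_⟩
      rw [zero_mul, sub_zero]
      have h1 : ∏ r ∈ R, ((RatFunc.X : RatFunc F) - algebraMap F (RatFunc F) r) ^ ((n : ℤ) * G r) =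
          algebraMap F (RatFunc F) 1 * (aeval (RatFunc.X : RatFunc F) w.num / aeval (RatFunc.X : RatFunc F) w.denom) ^ ℓ := by
        rw [hx, hx, RatFunc.num_div_denom, ← hw, map_one, one_mul, ← Finset.prod_pow]
        refine Finset.prod_congr rfl fun r _ => ?_
        rw [mul_comm, zpow_mul, zpow_natCast]
      have h2 := Wt.Lns.dvd_of_prod_eq_pow hinj' R (fun r => (n : ℤ) * G r) 1 one_ne_zero w.num w.denom
        (RatFunc.denom_ne_zero w) h1 r hr
      exact (Nat.isCoprime_iff_coprime.2 hn.symm : IsCoprime (ℓ : ℤ) (n : ℤ)).dvd_of_dvd_mul_left h2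
  · -- the polynomial is not a power
    push Not at hV
    obtain ⟨r₀, hr₀, hV₀⟩ := hV
    have hg0 : (∏ r ∈ R, (X - C r) ^ V r : F[X]) ≠ 0 :=
      Finset.prod_ne_zero_iff.2 fun r _ => pow_ne_zero _ (X_sub_C_ne_zero r)
    have hno : ∀ b : RatFunc F, b ^ ℓ ≠ algebraMap F[X] (RatFunc F) (∏ r ∈ R, (X - C r) ^ V r) := by
      intro b hb
      have h1 : ∏ r ∈ R, ((RatFunc.X : RatFunc F) - algebraMap F (RatFunc F) r) ^ ((V r : ℕ) : ℤ) =
          algebraMap F (RatFunc F) 1 * (aeval (RatFunc.X : RatFunc F) b.num / aeval (RatFunc.X : RatFunc F) b.denom) ^ ℓ := by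
        rw [hx, hx, RatFunc.num_div_denom, hb, map_one, one_mul, ← hx, map_prod]
        refine Finset.prod_congr rfl fun r _ => ?_
        rw [map_pow, map_sub, aeval_X, aeval_C, zpow_natCast]
      have h2 := Wt.Lns.dvd_of_prod_eq_pow hinj' R (fun r => ((V r : ℕ) : ℤ)) 1 one_ne_zero b.num b.denom
        (RatFunc.denom_ne_zero b) h1 r₀ hr₀
      exact hV₀ (Int.natCast_dvd_natCast.1 h2)
    obtain ⟨κ, _, _, x, y, h⟩ := exists_fib_of hℓ hζ _ hno hg0
    refine ⟨κ, inferInstance, inferInstance, x, y, h.inj, ?_, h.ne, fun G n hn w hw => ?_⟩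
    · rw [h.eq, map_prod]
      refine Finset.prod_congr rfl fun r _ => ?_
      rw [map_pow, map_sub, aeval_X, aeval_C]
    · exact kummer_fib hℓ hζ R V h G n hn w hw

end Pool.Agent.Lib.MP_89bcae_ag.Zu
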