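import Mathlib
import Pool.Agent.Lib.MP_89bcae_ag.Zu.Fib
import Pool.Agent.Lib.MP_89bcae_ag.Zm.Loc

/-!
# The linear factors of a polynomial over the local field, at the generic point of the special fibre
-/

attribute [local instance 100000] Pool.Agent.Lib.MP_89bcae_ag.Brt.tffFields
attribute [local instance 100000] Pool.Agent.Lib.MP_89bcae_ag.Wt.ifrNF Pool.Agent.Lib.MP_89bcae_ag.Wt.iddNF

open Polynomial IsDedekindDomain IsLocalRing

open scoped Classical

namespace Pool.Agent.Lib.MP_89bcae_ag.Zu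

open Pool.Agent.Lib.MP_89bcae_ag.Wt Pool.Agent.Lib.MP_89bcae_ag.Wt.Lns Pool.Agent.Lib.MP_89bcae_ag.Bra
  Pool.Agent.Lib.MP_89bcae_ag.Brt

open Pool.Agent.Lib.MP_89bcae_ag.Zm (nr nrI)

section

variable {F K E κ : Type} [Field F] [IsAlgClosed F] [Field K] [Algebra F[X] K] [Field E]
  [Algebra K E] [Algebra F E] [IsAlgClosure K E] [Field κ] [Algebra F κ] {ℓ : ℕ} [NeZero ℓ] {s : F}
  {ζ : F} {v : AbsoluteValue E ℝ} {f : K[X]} {i : K →+* Hk ℓ κ}

/-- The residues of the finite roots. -/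
noncomputable def resS (v : AbsoluteValue E ℝ) (p : E[X]) (res : E → F) : Finset F :=
  (p.roots.toFinset.filter fun θ => v θ ≤ 1).image res

omit [IsAlgClosed F] [Algebra F[X] K] [IsAlgClosure K E] in
lemma u_root (g : E ≃ₐ[K] E) {θ : E} (h : (f.map (algebraMap K E)).eval θ = 0) :
    (f.map (algebraMap K E)).eval (g θ) = 0 := by
  rw [eval_map_algebraMap] at h ⊢
  have h1 : aeval (g θ) f = g (aeval θ f) := aeval_algHom_apply g.toAlgHom θ f
  rw [h1, h, map_zero]

omit [IsAlgClosed F] [Algebra F[X] K] [IsAlgClosure K E] in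
lemma u_wt (g : E ≃ₐ[K] E) (θ : E) : wt (f.map (algebraMap K E)) (g θ) = wt (f.map (algebraMap K E)) θ :=
  wt_sym (gs f g) θ

/-- A polynomial over an algebraically closed field is the product over its roots. -/
lemma u_prod {E : Type} [Field E] [IsAlgClosed E] (p : E[X]) :
    p = C p.leadingCoeff * ∏ θ ∈ p.roots.toFinset, (X - C θ) ^ wt p θ := by
  have h2 := (IsAlgClosed.splits p).eq_prod_roots
  have h3 : (p.roots.map fun a => X - C a).prod = ∏ θ ∈ p.roots.toFinset, (X - C θ) ^ wt p θ := by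
    rw [Finset.prod_multiset_map_count]
    refine Finset.prod_congr rfl fun θ _ => ?_
    rw [Polynomial.count_roots]
    rfl
  rw [← h3]
  exact h2

/-- The values at the generic point of the special fibre: `x - θ` is the product of `x - res θ`, for the finite roots, or
of `- θ`, for the others, and of the `ℓ`-th power of `ρ θ`. -/
theorem exists_rhoU [IsAlgClosure (Hk ℓ κ) (Tk κ)] (hℓ : ℓ.Prime) (hζ : IsPrimitiveRoot ζ ℓ)
    (hL : LocF F K s v) {res : E → F} (hres : ∀ θ, v θ ≤ 1 → v (θ - algebraMap F E (res θ)) < 1)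
    (hi : IsEmbV ℓ s v i) (jE : E →+* Tk κ)
    (hj : ∀ z : K, jE (algebraMap K E z) = algebraMap (Hk ℓ κ) (Tk κ) (i z)) {x : κ}
    (hx : ∀ p : F[X], aeval x p = 0 → p = 0)
    (r : (Tk κ ≃ₐ[Hk ℓ κ] Tk κ) →* (E ≃ₐ[K] E)) (hr : ∀ g z, jE (r g z) = g (jE z)) :
    ∃ (ρ : E → (Tk κ)ˣ) (R : Tk κ → Tk κ),
      (∀ θ, v θ ≤ 1 → (ρ θ : Tk κ) ^ ℓ *
        (algebraMap (Hk ℓ κ) (Tk κ) (cH ℓ x) - jE (algebraMap F E (res θ))) =
          algebraMap (Hk ℓ κ) (Tk κ) (cH ℓ x) - jE θ) ∧
      (∀ θ, 1 < v θ → (ρ θ : Tk κ) ^ ℓ * jE (-θ) = algebraMap (Hk ℓ κ) (Tk κ) (cH ℓ x) - jE θ) ∧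
      (∀ (g : Tk κ ≃ₐ[Hk ℓ κ] Tk κ) (θ : E), g (ρ θ : Tk κ) = ρ (r g θ)) ∧
      (∀ z : E, v (z - 1) < 1 → R (jE z) ^ ℓ = jE z ∧ R (jE z) ≠ 0) ∧
      ∀ (g : Tk κ ≃ₐ[Hk ℓ κ] Tk κ) (z : E), v (z - 1) < 1 → g (R (jE z)) = R (g (jE z)) := by
  obtain ⟨w, hw⟩ := exists_absT ℓ κ
  have hζ' : IsPrimitiveRoot (algebraMap F κ ζ) ℓ :=
    hζ.map_of_injective (algebraMap F κ).injective
  obtain ⟨R, hR1, hR2⟩ := exists_root_one hw hℓ hζ'
  set x' : Tk κ := algebraMap (Hk ℓ κ) (Tk κ) (cH ℓ x) with hx'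
  have hwx : ∀ c : F, w (x' - jE (algebraMap F E c)) = 1 := by
    intro c
    rw [absT_const hL hi jE hj c, hx', ← map_sub, ← map_sub]
    apply hw.const
    intro h0
    have h1 : (X - C c : F[X]) = 0 := by
      apply hx
      rw [map_sub, aeval_X, aeval_C]
      exact h0
    exact X_sub_C_ne_zero c h1
  have hwx0 : w x' = 1 := by
    have h1 := hwx 0
    rwa [map_zero, map_zero, sub_zero] at h1
  have hne : ∀ c : F, x' - jE (algebraMap F E c) ≠ 0 := by
    intro c h0
    have := hwx c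
    rw [h0, map_zero] at this
    exact zero_ne_one this
  let lam : E → Tk κ := fun θ => if v θ ≤ 1 then x' - jE (algebraMap F E (res θ)) else jE (-θ)
  have hlam0 : ∀ θ, lam θ ≠ 0 := by
    intro θ
    change (if v θ ≤ 1 then x' - jE (algebraMap F E (res θ)) else jE (-θ)) ≠ 0
    split_ifs with h
    · exact hne _
    · rw [Ne, _root_.map_eq_zero, neg_eq_zero]
      rintro rfl
      rw [map_zero] at h
      exact h zero_le_one
  let z : E → Tk κ := fun θ => (x' - jE θ) / lam θ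
  have hz1 : ∀ θ, w (z θ - 1) < 1 := by
    intro θ
    by_cases h : v θ ≤ 1
    · have h0 : lam θ = x' - jE (algebraMap F E (res θ)) := if_pos h
      have h1 : z θ - 1 = (-(jE (θ - algebraMap F E (res θ)))) / (x' - jE (algebraMap F E (res θ))) := by
        change (x' - jE θ) / lam θ - 1 = _
        rw [h0, div_sub_one (hne _), map_sub]
        congr 1
        ring
      rw [h1, map_div₀, hwx, div_one, AbsoluteValue.map_neg]
      exact absT_lt hL hi hw jE hj _ (hres θ h)
    · have h0 : lam θ = jE (-θ) := if_neg h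
      have hθ0 : θ ≠ 0 := by
        rintro rfl
        rw [map_zero] at h
        exact h zero_le_one
      have h1 : z θ - 1 = - (x' * jE θ⁻¹) := by
        change (x' - jE θ) / lam θ - 1 = _
        have h2 : jE θ ≠ 0 := (_root_.map_ne_zero _).2 hθ0
        rw [h0, map_neg, map_inv₀]
        field_simp
        ring
      rw [h1, AbsoluteValue.map_neg, map_mul, hwx0, one_mul]
      refine absT_lt hL hi hw jE hj _ ?_
      rw [map_inv₀]
      exact inv_lt_one_of_one_lt₀ (not_le.1 h)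
  have hR0 : ∀ y : Tk κ, w (y - 1) < 1 → R y ≠ 0 := by
    intro y hy h0
    have h1 := (hR1 y hy).2
    rw [h0, zero_sub, AbsoluteValue.map_neg, map_one] at h1
    exact lt_irrefl _ h1
  have hjR : ∀ z : E, v (z - 1) < 1 → w (jE z - 1) < 1 := by
    intro z hz
    have h1 : jE z - 1 = jE (z - 1) := by rw [map_sub, map_one]
    rw [h1]
    exact absT_lt hL hi hw jE hj _ hz
  refine ⟨fun θ => Units.mk0 (R (z θ)) (hR0 _ (hz1 θ)), R, ?_, ?_, ?_, ?_, ?_⟩
  · intro θ hθ
    have h0 : lam θ = x' - jE (algebraMap F E (res θ)) := if_pos hθ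
    rw [Units.val_mk0, (hR1 _ (hz1 θ)).1, ← h0]
    exact div_mul_cancel₀ _ (hlam0 _)
  · intro θ hθ
    have h0 : lam θ = jE (-θ) := if_neg (not_le.2 hθ)
    rw [Units.val_mk0, (hR1 _ (hz1 θ)).1, ← h0]
    exact div_mul_cancel₀ _ (hlam0 _)
  · intro g θ
    rw [Units.val_mk0, Units.val_mk0, hR2 g _ (hz1 θ)]
    congr 1
    change g ((x' - jE θ) / lam θ) = (x' - jE (r g θ)) / lam (r g θ)
    have hgx : g x' = x' := by
      rw [hx', g.commutes]
    rw [map_div₀, map_sub, hgx, ← hr]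
    congr 1
    have hvg : v (r g θ) = v θ := hL.inv (r g) θ
    by_cases h : v θ ≤ 1
    · have h0 : lam θ = x' - jE (algebraMap F E (res θ)) := if_pos h
      have h0' : lam (r g θ) = x' - jE (algebraMap F E (res (r g θ))) := if_pos (by rw [hvg]; exact h)
      have hgc : g (jE (algebraMap F E (res θ))) = jE (algebraMap F E (res θ)) := by
        rw [← hr, hL.compat, (r g).commutes]
      have hfix : (r g) (algebraMap F E (res θ)) = algebraMap F E (res θ) := by
        rw [hL.compat, (r g).commutes]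
      have h3 : res (r g θ) = res θ := by
        refine (hL.ctx.residue_unique (hres _ (by rw [hvg]; exact h)) ?_)
        have h4 : r g θ - algebraMap F E (res θ) = r g (θ - algebraMap F E (res θ)) := by
          rw [map_sub, hfix]
        rw [h4, hL.inv]
        exact hres θ h
      rw [h0, h0', map_sub, hgx, hgc, h3]
    · have h0 : lam θ = jE (-θ) := if_neg h
      have h0' : lam (r g θ) = jE (-(r g θ)) := if_neg (by rw [hvg]; exact h)
      rw [h0, h0', ← map_neg, hr]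
  · exact fun z hz => ⟨(hR1 _ (hjR z hz)).1, hR0 _ (hjR z hz)⟩
  · exact fun g z hz => hR2 g _ (hjR z hz)

end

end Pool.Agent.Lib.MP_89bcae_ag.Zu
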