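import Mathlib
import Pool.Agent.Lib.MP_89bcae_ag.Zu.Rho

/-!
# The function `y` at the generic point of the special fibre
-/

attribute [local instance 100000] Pool.Agent.Lib.MP_89bcae_ag.Brt.tffFields
attribute [local instance 100000] Pool.Agent.Lib.MP_89bcae_ag.Wt.ifrNF Pool.Agent.Lib.MP_89bcae_ag.Wt.iddNF

open Polynomial IsDedekindDomain IsLocalRing

open scoped Classical

namespace Pool.Agent.Lib.MP_89bcae_ag.Zu

open Pool.Agent.Lib.MP_89bcae_ag.Wt Pool.Agent.Lib.MP_89bcae_ag.Wt.Lns Pool.Agent.Lib.MP_89bcae_ag.Bra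
  Pool.Agent.Lib.MP_89bcae_ag.Brt

open Pool.Agent.Lib.MP_89bcae_ag.Zm (nr nrI)

section

variable {F E : Type} [Field F] [Field E] [Algebra F E] {v : AbsoluteValue E ℝ} {s : F} {t : E} {p : E[X]}
  {res : E → F}

lemma u_le (hc : Sup.LocCtx v s t) {θ : E} {r : F} (h : v (θ - algebraMap F E r) < 1) : v θ ≤ 1 := by
  have h2 := hc.nonarch (θ - algebraMap F E r) (algebraMap F E r)
  rw [sub_add_cancel] at h2
  refine h2.trans (max_le h.le ?_)
  by_cases h3 : r = 0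
  · rw [h3, map_zero, map_zero]
    exact zero_le_one
  · exact (hc.const _ h3).le

/-- The roots near `r` are the finite roots with residue `r`. -/
lemma u_filter (hc : Sup.LocCtx v s t) (hres : ∀ θ, v θ ≤ 1 → v (θ - algebraMap F E (res θ)) < 1) (r : F) :
    (p.roots.toFinset.filter fun θ => v θ ≤ 1).filter (fun θ => res θ = r) = nr F v p r := by
  unfold nr
  rw [Finset.filter_filter]
  refine Finset.filter_congr fun θ _ => ?_
  constructor
  · rintro ⟨h1, rfl⟩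
    exact hres θ h1
  · intro h1
    have h2 := u_le hc h1
    exact ⟨h2, hc.residue_unique (hres θ h2) h1⟩

/-- Products over the roots. -/
lemma u_fib (hc : Sup.LocCtx v s t) (hres : ∀ θ, v θ ≤ 1 → v (θ - algebraMap F E (res θ)) < 1)
    {N : Type*} [CommMonoid N] (φ : E → N) :
    ∏ θ ∈ p.roots.toFinset, φ θ =
      (∏ r ∈ resS v p res, ∏ θ ∈ nr F v p r, φ θ) * ∏ θ ∈ nrI v p, φ θ := by
  rw [← Finset.prod_filter_mul_prod_filter_not p.roots.toFinset (fun θ => v θ ≤ 1) φ]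
  congr 1
  · rw [← Finset.prod_fiberwise_of_maps_to (t := resS v p res) (g := res)
      (fun θ hθ => Finset.mem_image_of_mem res hθ) φ]
    exact Finset.prod_congr rfl fun r _ => Finset.prod_congr (u_filter hc hres r) fun _ _ => rfl
  · unfold nrI
    refine Finset.prod_congr (Finset.filter_congr fun θ _ => not_le) fun _ _ => rfl

/-- Sums over the roots. -/
lemma u_fib_sum (hc : Sup.LocCtx v s t) (hres : ∀ θ, v θ ≤ 1 → v (θ - algebraMap F E (res θ)) < 1)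
    {N : Type*} [AddCommMonoid N] (φ : E → N) :
    ∑ θ ∈ p.roots.toFinset, φ θ =
      (∑ r ∈ resS v p res, ∑ θ ∈ nr F v p r, φ θ) + ∑ θ ∈ nrI v p, φ θ := by
  exact u_fib (N := Multiplicative N) hc hres φ

lemma u_mem_res (hc : Sup.LocCtx v s t) (hres : ∀ θ, v θ ≤ 1 → v (θ - algebraMap F E (res θ)) < 1) {r : F}
    (hr : r ∉ resS v p res) : nr F v p r = ∅ := by
  rw [← u_filter hc hres r, Finset.filter_eq_empty_iff]
  rintro θ hθ rfl
  exact hr (Finset.mem_image_of_mem res hθ)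

end

private lemma y_exp {L : Type} [Field L] {ℓ : ℕ} (hℓ : ℓ.Prime) (h : (ℓ : L) ≠ 0) :
    (ringExpChar L).Coprime ℓ := by
  have h1 := ringExpChar.expChar L
  generalize ringExpChar L = q at h1 ⊢
  rcases h1 with _ | hq
  · exact Nat.coprime_one_left ℓ
  · rw [Nat.coprime_primes hq hℓ]
    rintro rfl
    exact h (CharP.cast_eq_zero L _)

/-- A nonzero element whose powers with the exponents `a`, `b` (coprime) are in `L` is in `L`. -/
private lemma y_mem {L M : Type} [Field L] [Field M] [Algebra L M] {z : M} (hz : z ≠ 0)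
    {a b : ℕ} (hab : a.Coprime b) {u w : L} (hu : z ^ a = algebraMap L M u)
    (hw : z ^ b = algebraMap L M w) : ∃ y : L, algebraMap L M y = z := by
  obtain ⟨c, d, hcd⟩ := Nat.isCoprime_iff_coprime.2 hab
  refine ⟨u ^ c * w ^ d, ?_⟩
  rw [map_mul, map_zpow₀, map_zpow₀, ← hu, ← hw, ← zpow_natCast, ← zpow_natCast, ← zpow_mul,
    ← zpow_mul, ← zpow_add₀ hz]
  have h2 : (a : ℤ) * c + (b : ℤ) * d = 1 := by
    rw [← hcd]
    ring
  rw [h2, zpow_one]

section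

variable {F K E κ : Type} [Field F] [IsAlgClosed F] [Field K] [Algebra F[X] K] [Field E]
  [Algebra K E] [Algebra F E] [IsAlgClosure K E] [Field κ] [Algebra F κ] {ℓ : ℕ} [NeZero ℓ] {s : F}
  {ζ : F} {v : AbsoluteValue E ℝ} {f : K[X]} {i : K →+* Hk ℓ κ}

omit [IsAlgClosed F] [Algebra F[X] K] [Algebra F E] [IsAlgClosure K E] in
lemma u_mem_roots (hp0 : f.map (algebraMap K E) ≠ 0) (θ : E) : θ ∈ (f.map (algebraMap K E)).roots.toFinset ↔
    (f.map (algebraMap K E)).eval θ = 0 := by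
  rw [Multiset.mem_toFinset, Polynomial.mem_roots hp0]
  rfl

omit [IsAlgClosed F] [IsAlgClosure K E] in
lemma u_inf_stable (hL : LocF F K s v) (hp0 : f.map (algebraMap K E) ≠ 0) (g : E ≃ₐ[K] E) {θ : E}
    (h : θ ∈ nrI v (f.map (algebraMap K E))) : g θ ∈ nrI v (f.map (algebraMap K E)) := by
  unfold nrI at h ⊢
  rw [Finset.mem_filter, u_mem_roots hp0] at h ⊢
  exact ⟨u_root g h.1, by rw [hL.inv]; exact h.2⟩

omit [IsAlgClosed F] [IsAlgClosure K E] in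
lemma u_fixF (hL : LocF F K s v) (g : E ≃ₐ[K] E) (c : F) : g (algebraMap F E c) = algebraMap F E c := by
  rw [hL.compat, g.commutes]

omit [IsAlgClosed F] [IsAlgClosure K E] in
lemma u_nr_stable (hL : LocF F K s v) (hp0 : f.map (algebraMap K E) ≠ 0) (g : E ≃ₐ[K] E) {r : F} {θ : E}
    (h : θ ∈ nr F v (f.map (algebraMap K E)) r) : g θ ∈ nr F v (f.map (algebraMap K E)) r := by
  unfold nr at h ⊢
  rw [Finset.mem_filter, u_mem_roots hp0] at h ⊢
  refine ⟨u_root g h.1, ?_⟩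
  have h1 : g θ - algebraMap F E r = g (θ - algebraMap F E r) := by
    rw [map_sub, u_fixF hL]
  rw [h1, hL.inv]
  exact h.2

omit [IsAlgClosed F] [Algebra F[X] K] [Algebra F E] [IsAlgClosure K E] in
/-- Products over a stable set. -/
lemma u_prod_comp {N : Type*} [CommMonoid N] (S : Finset E) (g : E ≃ₐ[K] E)
    (hS : ∀ (g : E ≃ₐ[K] E), ∀ θ ∈ S, g θ ∈ S) (φ : E → N) :
    ∏ θ ∈ S, φ (g θ) = ∏ θ ∈ S, φ θ := by
  refine Finset.prod_nbij' (fun θ => g θ) (fun θ => g⁻¹ θ) (hS g) (hS g⁻¹) (fun θ _ => ?_) (fun θ _ => ?_)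
    fun _ _ => rfl
  · rw [← AlgEquiv.mul_apply, inv_mul_cancel, AlgEquiv.one_apply]
  · rw [← AlgEquiv.mul_apply, mul_inv_cancel, AlgEquiv.one_apply]

/-- The constant of the special fibre. -/
noncomputable def cInf (v : AbsoluteValue E ℝ) (p : E[X]) : E := p.leadingCoeff * ∏ θ ∈ nrI v p, (-θ) ^ wt p θ

omit [IsAlgClosed F] [IsAlgClosure K E] in
lemma u_cInf_fixed (hL : LocF F K s v) (hp0 : f.map (algebraMap K E) ≠ 0) (g : E ≃ₐ[K] E) :
    g (cInf v (f.map (algebraMap K E))) = cInf v (f.map (algebraMap K E)) := by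
  unfold cInf
  rw [map_mul, map_prod, leadingCoeff_map, g.commutes, ← u_prod_comp _ g (fun g θ h => u_inf_stable hL hp0 g h)
    (fun θ => (-θ) ^ wt (f.map (algebraMap K E)) θ)]
  congr 1
  refine Finset.prod_congr rfl fun θ _ => ?_
  rw [map_pow, map_neg, u_wt]

/-- The function `y` over the local field. -/
theorem exists_YU [hG : IsGood ℓ (f.map (algebraMap K E))] [IsAlgClosure (Hk ℓ κ) (Tk κ)]
    (hℓ : ℓ.Prime) (hℓF : (ℓ : F) ≠ 0) (hζ : IsPrimitiveRoot ζ ℓ)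
    (hL : LocF F K s v) {res : E → F} (hres : ∀ θ, v θ ≤ 1 → v (θ - algebraMap F E (res θ)) < 1)
    (hlead : v (cInf v (f.map (algebraMap K E))) = 1)
    (hi : IsEmbV ℓ s v i) (jE : E →+* Tk κ)
    (hj : ∀ z : K, jE (algebraMap K E z) = algebraMap (Hk ℓ κ) (Tk κ) (i z)) {x y : κ}
    (hF : FibU ℓ (resS v (f.map (algebraMap K E)) res)
      (fun r => ∑ θ ∈ nr F v (f.map (algebraMap K E)) r, wt (f.map (algebraMap K E)) θ) x y) :
    ∃ Y : Hk ℓ κ, Y ^ ℓ = f.eval₂ i (cH ℓ x) := by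
  have hE : IsAlgClosed E := hG.alg
  have hp0 : f.map (algebraMap K E) ≠ 0 := f_ne_zero ℓ _
  obtain ⟨r, hr⟩ := exists_resE (i := i) jE hj
  obtain ⟨ρ, R, hρ1, hρ1', hρ2, hR1, hR2⟩ := exists_rhoU hℓ hζ hL hres hi jE hj hF.inj r hr
  obtain ⟨x', hx'⟩ : ∃ x' : Tk κ, x' = algebraMap (Hk ℓ κ) (Tk κ) (cH ℓ x) := ⟨_, rfl⟩
  obtain ⟨y', hy'⟩ : ∃ y' : Tk κ, y' = algebraMap (Hk ℓ κ) (Tk κ) (cH ℓ y) := ⟨_, rfl⟩
  set p := f.map (algebraMap K E) with hp
  -- the constant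
  obtain ⟨c₁, hc₁⟩ : ∃ c₁ : E, c₁ = cInf v p := ⟨_, rfl⟩
  have hc₁v : v c₁ = 1 := by rw [hc₁]; exact hlead
  obtain ⟨c₂, hc₂⟩ : ∃ c₂ : F, c₂ = res c₁ := ⟨_, rfl⟩
  have hc₂1 : v (c₁ - algebraMap F E c₂) < 1 := by
    rw [hc₂]
    exact hres _ hc₁v.le
  have hc₂0 : c₂ ≠ 0 := by
    rintro h0
    rw [h0, map_zero, sub_zero, hc₁v] at hc₂1
    exact lt_irrefl _ hc₂1
  obtain ⟨d, hd⟩ := IsAlgClosed.exists_pow_nat_eq c₂ hℓ.pos
  have hc₂E : algebraMap F E c₂ ≠ 0 := (_root_.map_ne_zero _).2 hc₂0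
  have hq : v (c₁ / algebraMap F E c₂ - 1) < 1 := by
    rw [div_sub_one hc₂E, map_div₀, hL.ctx.const _ hc₂0, _root_.div_one]
    exact hc₂1
  obtain ⟨z₀, hz₀⟩ : ∃ z₀ : Tk κ, z₀ = R (jE (c₁ / algebraMap F E c₂)) := ⟨_, rfl⟩
  have hz₀1 : z₀ ^ ℓ = jE (c₁ / algebraMap F E c₂) := by rw [hz₀]; exact (hR1 _ hq).1
  have hz₀0 : z₀ ≠ 0 := by rw [hz₀]; exact (hR1 _ hq).2
  obtain ⟨d', hd'⟩ : ∃ d' : Tk κ, d' = jE (algebraMap F E d) := ⟨_, rfl⟩
  have hd'1 : d' ^ ℓ = jE (algebraMap F E c₂) := by rw [hd', ← map_pow, ← map_pow, hd]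
  have hd'0 : d' ≠ 0 := by
    rintro h0
    rw [h0, zero_pow hℓ.ne_zero] at hd'1
    exact hc₂E ((map_eq_zero _).1 hd'1.symm)
  have hc : (d' * z₀) ^ ℓ = jE c₁ := by
    rw [mul_pow, hd'1, hz₀1, ← map_mul, mul_div_cancel₀ _ hc₂E]
  -- the power of `y`
  have hyl : y' ^ ℓ = ∏ t ∈ resS v p res, (x' - jE (algebraMap F E t)) ^ ∑ θ ∈ nr F v p t, wt p θ := by
    rw [hy', ← map_pow, ← map_pow, hF.eq, map_prod, map_prod]
    refine Finset.prod_congr rfl fun t _ => ?_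
    rw [map_pow, map_pow, map_sub, map_sub, absT_const hL hi jE hj t, hx']
  -- the value of `f`
  have hfx : algebraMap (Hk ℓ κ) (Tk κ) (f.eval₂ i (cH ℓ x)) =
      jE p.leadingCoeff * ∏ θ ∈ p.roots.toFinset, (x' - jE θ) ^ wt p θ := by
    have h1 : algebraMap (Hk ℓ κ) (Tk κ) (f.eval₂ i (cH ℓ x)) = p.eval₂ jE x' := by
      rw [Polynomial.hom_eval₂, hp, Polynomial.eval₂_map, hx']
      congr 1
      ext z
      exact (hj z).symm
    rw [h1]
    have h2 := congrArg (Polynomial.eval₂ jE x') (u_prod p)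
    rw [h2, eval₂_mul, eval₂_C, Polynomial.eval₂_finsetProd]
    congr 1
    refine Finset.prod_congr rfl fun θ _ => ?_
    rw [Polynomial.eval₂_pow, Polynomial.eval₂_sub, Polynomial.eval₂_X, Polynomial.eval₂_C]
  -- the element
  obtain ⟨Y', hY'⟩ : ∃ Y' : Tk κ, Y' = d' * z₀ * (y' * ∏ θ ∈ p.roots.toFinset, (ρ θ : Tk κ) ^ wt p θ) := ⟨_, rfl⟩
  have hYl : Y' ^ ℓ = algebraMap (Hk ℓ κ) (Tk κ) (f.eval₂ i (cH ℓ x)) := by
    rw [hY', hfx, mul_pow, hc, mul_pow, hyl, ← Finset.prod_pow, u_fib hL.ctx hres, u_fib hL.ctx hres, hc₁]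
    unfold cInf
    rw [map_mul, map_prod]
    have e1 : ∀ t ∈ resS v p res, (∏ θ ∈ nr F v p t, (x' - jE θ) ^ wt p θ) =
        (x' - jE (algebraMap F E t)) ^ (∑ θ ∈ nr F v p t, wt p θ) * ∏ θ ∈ nr F v p t, ((ρ θ : Tk κ) ^ wt p θ) ^ ℓ := by
      intro t _
      rw [← Finset.prod_pow_eq_pow_sum, ← Finset.prod_mul_distrib]
      refine Finset.prod_congr rfl fun θ hθ => ?_
      rw [← u_filter hL.ctx hres, Finset.mem_filter, Finset.mem_filter] at hθ
      have h1 := hρ1 θ hθ.1.2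
      rw [← hx', hθ.2] at h1
      rw [← h1, mul_pow, ← pow_mul, ← pow_mul, mul_comm ℓ, mul_comm]
    have e2 : (∏ θ ∈ nrI v p, (x' - jE θ) ^ wt p θ) =
        (∏ θ ∈ nrI v p, jE ((-θ) ^ wt p θ)) * ∏ θ ∈ nrI v p, ((ρ θ : Tk κ) ^ wt p θ) ^ ℓ := by
      rw [← Finset.prod_mul_distrib]
      refine Finset.prod_congr rfl fun θ hθ => ?_
      unfold nrI at hθ
      rw [Finset.mem_filter] at hθ
      have h1 := hρ1' θ hθ.2
      rw [← hx'] at h1
      rw [← h1, mul_pow, map_pow, ← pow_mul, ← pow_mul, mul_comm ℓ, mul_comm]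
    rw [Finset.prod_congr rfl e1, e2, Finset.prod_mul_distrib]
    ring
  have hY0 : Y' ≠ 0 := by
    rw [hY']
    refine mul_ne_zero (mul_ne_zero hd'0 hz₀0)
      (mul_ne_zero ?_ (Finset.prod_ne_zero_iff.mpr fun θ _ => pow_ne_zero _ (ρ θ).ne_zero))
    rw [hy']
    intro h0
    apply hF.ne
    have h1 : cH ℓ y = 0 := (map_eq_zero_iff _ (algebraMap (Hk ℓ κ) (Tk κ)).injective).1 h0
    exact (map_eq_zero_iff _ (cH ℓ (κ := κ)).injective).1 h1
  have hYg : ∀ g : Tk κ ≃ₐ[Hk ℓ κ] Tk κ, g Y' = Y' := by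
    intro g
    have e0 : g d' = d' := by
      rw [hd', absT_const hL hi jE hj, g.commutes]
    have e1 : g z₀ = z₀ := by
      rw [hz₀, hR2 g _ hq, ← hr, map_div₀, u_fixF hL]
      have h1 : (r g) c₁ = c₁ := by
        rw [hc₁]
        exact u_cInf_fixed hL hp0 (r g)
      rw [h1]
    have e2 : g y' = y' := by
      rw [hy', g.commutes]
    rw [hY', map_mul, map_mul, map_mul, e0, e1, e2, map_prod]
    congr 2
    have h1 : ∀ θ ∈ p.roots.toFinset, g ((ρ θ : Tk κ) ^ wt p θ) = (ρ (r g θ) : Tk κ) ^ wt p (r g θ) := by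
      intro θ hθ
      rw [map_pow, hρ2 g θ, hp, u_wt]
    rw [Finset.prod_congr rfl h1]
    exact u_prod_comp p.roots.toFinset (r g) (fun g θ h => by
      rw [hp, u_mem_roots hp0] at h ⊢
      exact u_root g h) (fun θ => (ρ θ : Tk κ) ^ wt p θ)
  obtain ⟨m, u, hu⟩ := exists_pow_mem (K := Hk ℓ κ) Y' hYg
  have hH : (ℓ : Hk ℓ κ) ≠ 0 := by
    intro h0
    apply hℓF
    have h1 : cH ℓ (ℓ : κ) = 0 := by rw [map_natCast]; exact h0
    have h2 : (ℓ : κ) = 0 := (map_eq_zero_iff _ (cH ℓ (κ := κ)).injective).1 h1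
    have h3 : algebraMap F κ (ℓ : F) = 0 := by rw [map_natCast]; exact h2
    exact (map_eq_zero_iff _ (algebraMap F κ).injective).1 h3
  obtain ⟨Y, hY⟩ := y_mem hY0 ((y_exp hℓ hH).pow_left m) hu hYl
  refine ⟨Y, ?_⟩
  apply (algebraMap (Hk ℓ κ) (Tk κ)).injective
  rw [map_pow, hY, hYl]

end

end Pool.Agent.Lib.MP_89bcae_ag.Zu
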