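import Mathlib
import Pool.Agent.Lib.MP_89bcae_ag.Zu.Yu

/-!
# The condition of the special fibre, with roots at infinity
-/

attribute [local instance 100000] Pool.Agent.Lib.MP_89bcae_ag.Brt.tffFields
attribute [local instance 100000] Pool.Agent.Lib.MP_89bcae_ag.Wt.ifrNF Pool.Agent.Lib.MP_89bcae_ag.Wt.iddNF

open Polynomial IsDedekindDomain IsLocalRing

open scoped Classical

namespace Pool.Agent.Lib.MP_89bcae_ag.Zu

open Pool.Agent.Lib.MP_89bcae_ag.Wt Pool.Agent.Lib.MP_89bcae_ag.Wt.Lns Pool.Agent.Lib.MP_89bcae_ag.Bra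
  Pool.Agent.Lib.MP_89bcae_ag.Brt

open Pool.Agent.Lib.MP_89bcae_ag.Zm (nr nrI)

private lemma c_add_aux {A : Type*} [AddCommGroup A] {n : ℕ} {p q x₁ x₂ x₃ y₁ y₂ y₃ z w₁ w₂ w₃ : A}
    (h1 : p + x₁ = x₂ + x₃) (h2 : p + y₁ = q + z + (y₂ + y₃)) (h3 : n • z + w₁ = w₂ + w₃) :
    n • q + (n • x₁ + -(n • y₁) + -w₁) =
      (n • x₂ + -(n • y₂) + -w₂) + (n • x₃ + -(n • y₃) + -w₃) := by
  have e1 : p = x₂ + x₃ - x₁ := eq_sub_of_add_eq h1
  have e2 : q = p + y₁ - z - (y₂ + y₃) := by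
    rw [h2]
    abel
  have e3 : w₁ = w₂ + w₃ - n • z := by
    rw [← h3]
    abel
  rw [e2, e1, e3]
  simp only [smul_add, smul_sub]
  abel

private lemma c_mul_aux {G : Type*} [CommGroup G] {n : ℕ} {p q x₁ x₂ x₃ y₁ y₂ y₃ z w₁ w₂ w₃ : G}
    (h1 : p * x₁ = x₂ * x₃) (h2 : p * y₁ = q * z * (y₂ * y₃)) (h3 : z ^ n * w₁ = w₂ * w₃) :
    q ^ n * (x₁ ^ n * (y₁ ^ n)⁻¹ * w₁⁻¹) =
      (x₂ ^ n * (y₂ ^ n)⁻¹ * w₂⁻¹) * (x₃ ^ n * (y₃ ^ n)⁻¹ * w₃⁻¹) :=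
  c_add_aux (A := Additive G) h1 h2 h3

private lemma c_zpow_sum {G : Type*} [CommGroup G] {ι : Type*} (S : Finset ι) (z : G)
    (n : ι → ℤ) : ∏ i ∈ S, z ^ n i = z ^ ∑ i ∈ S, n i := by
  induction S using Finset.induction_on with
  | empty => simp
  | insert i S hi ih => rw [Finset.prod_insert hi, Finset.sum_insert hi, zpow_add, ih]

private lemma c_zpow_prod {G : Type*} [CommGroup G] {ι : Type*} (S : Finset ι) (z : ι → G)
    (n : ℤ) : (∏ i ∈ S, z i) ^ n = ∏ i ∈ S, z i ^ n := by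
  induction S using Finset.induction_on with
  | empty => simp
  | insert i S hi ih => rw [Finset.prod_insert hi, Finset.prod_insert hi, mul_zpow, ih]

/-- The calculation in the multiplicative group of `Tk κ`. -/
private lemma c_key {F E T : Type} [Field F] [Field E] [Algebra F E] [CommGroup T] {v : AbsoluteValue E ℝ} {s : F}
    {tt : E} (hc : Sup.LocCtx v s tt) (p : E[X]) {res : E → F}
    (hres : ∀ θ, v θ ≤ 1 → v (θ - algebraMap F E (res θ)) < 1) (X : F → T)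
    (lam ρ : E → T) (w : E → ℤ) (l : ℤ) (ε a b c : E → ℤ) (M qa qb qc : F → ℤ) (k : ℤ)
    (h1 : ∀ θ ∈ p.roots.toFinset, l * ε θ = a θ + b θ - c θ)
    (h2 : ∀ t ∈ resS v p res, ∑ θ ∈ nr F v p t, w θ * ε θ + qc t = M t * k + (qa t + qb t))
    (hlam : ∀ t ∈ resS v p res, ∀ θ ∈ nr F v p t, lam θ = X t) :
    (∏ θ ∈ p.roots.toFinset, (lam θ * ρ θ ^ l) ^ (w θ * ε θ)) *
      ((∏ θ ∈ p.roots.toFinset, ρ θ ^ (w θ * c θ)) * ∏ t ∈ resS v p res, X t ^ qc t) =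
    (∏ t ∈ resS v p res, X t ^ M t) ^ k * (∏ θ ∈ nrI v p, lam θ ^ (w θ * ε θ)) *
      (((∏ θ ∈ p.roots.toFinset, ρ θ ^ (w θ * a θ)) * ∏ t ∈ resS v p res, X t ^ qa t) *
      ((∏ θ ∈ p.roots.toFinset, ρ θ ^ (w θ * b θ)) * ∏ t ∈ resS v p res, X t ^ qb t)) := by
  have e1 : (∏ θ ∈ p.roots.toFinset, (lam θ * ρ θ ^ l) ^ (w θ * ε θ)) =
      (∏ t ∈ resS v p res, X t ^ ∑ θ ∈ nr F v p t, w θ * ε θ) * (∏ θ ∈ nrI v p, lam θ ^ (w θ * ε θ)) *
        ∏ θ ∈ p.roots.toFinset, ρ θ ^ (l * (w θ * ε θ)) := by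
    have e2 : (∏ θ ∈ p.roots.toFinset, lam θ ^ (w θ * ε θ)) =
        (∏ t ∈ resS v p res, X t ^ ∑ θ ∈ nr F v p t, w θ * ε θ) * ∏ θ ∈ nrI v p, lam θ ^ (w θ * ε θ) := by
      rw [u_fib hc hres]
      congr 1
      refine Finset.prod_congr rfl fun t ht => ?_
      rw [← c_zpow_sum]
      refine Finset.prod_congr rfl fun θ hθ => ?_
      rw [hlam t ht θ hθ]
    rw [← e2, ← Finset.prod_mul_distrib]
    refine Finset.prod_congr rfl fun θ _ => ?_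
    rw [mul_zpow, ← zpow_mul]
  have e3 : (∏ θ ∈ p.roots.toFinset, ρ θ ^ (l * (w θ * ε θ))) *
      (∏ θ ∈ p.roots.toFinset, ρ θ ^ (w θ * c θ)) =
      (∏ θ ∈ p.roots.toFinset, ρ θ ^ (w θ * a θ)) * ∏ θ ∈ p.roots.toFinset, ρ θ ^ (w θ * b θ) := by
    rw [← Finset.prod_mul_distrib, ← Finset.prod_mul_distrib]
    refine Finset.prod_congr rfl fun θ hθ => ?_
    rw [← zpow_add, ← zpow_add]
    congr 1
    linear_combination w θ * h1 θ hθ
  have e4 : (∏ t ∈ resS v p res, X t ^ ∑ θ ∈ nr F v p t, w θ * ε θ) * (∏ t ∈ resS v p res, X t ^ qc t) =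
      (∏ t ∈ resS v p res, X t ^ M t) ^ k *
        ((∏ t ∈ resS v p res, X t ^ qa t) * ∏ t ∈ resS v p res, X t ^ qb t) := by
    rw [c_zpow_prod, ← Finset.prod_mul_distrib, ← Finset.prod_mul_distrib,
      ← Finset.prod_mul_distrib]
    refine Finset.prod_congr rfl fun t ht => ?_
    rw [← zpow_add, ← zpow_mul, ← zpow_add, ← zpow_add, h2 t ht]
  rw [e1]
  generalize (∏ t ∈ resS v p res, X t ^ ∑ θ ∈ nr F v p t, w θ * ε θ) = A1 at e4 ⊢
  generalize (∏ θ ∈ nrI v p, lam θ ^ (w θ * ε θ)) = A0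
  generalize (∏ θ ∈ p.roots.toFinset, ρ θ ^ (l * (w θ * ε θ))) = A2 at e3 ⊢
  generalize (∏ θ ∈ p.roots.toFinset, ρ θ ^ (w θ * c θ)) = A3 at e3 ⊢
  generalize (∏ t ∈ resS v p res, X t ^ qc t) = A4 at e4 ⊢
  generalize (∏ t ∈ resS v p res, X t ^ M t) ^ k = A5 at e4 ⊢
  generalize (∏ θ ∈ p.roots.toFinset, ρ θ ^ (w θ * a θ)) = A6 at e3 ⊢
  generalize (∏ t ∈ resS v p res, X t ^ qa t) = A7 at e4 ⊢
  generalize (∏ θ ∈ p.roots.toFinset, ρ θ ^ (w θ * b θ)) = A8 at e3 ⊢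
  generalize (∏ t ∈ resS v p res, X t ^ qb t) = A9 at e4 ⊢
  calc A1 * A0 * A2 * (A3 * A4) = A0 * ((A1 * A4) * (A2 * A3)) := by
        rw [mul_comm A1 A0, mul_assoc A0, mul_assoc A0, mul_comm A3 A4, mul_mul_mul_comm]
    _ = A0 * (A5 * (A7 * A9) * (A6 * A8)) := by rw [e3, e4]
    _ = A5 * A0 * (A6 * A7 * (A8 * A9)) := by
        rw [mul_comm A5 A0, mul_assoc A0, mul_assoc A5, mul_comm (A7 * A9), mul_mul_mul_comm]

private lemma c_lcH {ℓ : ℕ} {κ : Type} [Field κ] (c : κ) : lcH (cH ℓ c) = c := by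
  by_cases h : c = 0
  · subst h
    rw [map_zero]
    exact HahnSeries.leadingCoeff_zero
  · show HahnSeries.leadingCoeff (HahnSeries.C c : LaurentSeries κ) = c
    exact HahnSeries.leadingCoeff_of_single

/-- The integral identity for the sums over the roots with a given residue. -/
private lemma c_arith {l A Ah Ag Agh qh qg qgh χg χh χgh ep M : ℤ} (hl : l ≠ 0)
    (h0 : l * A = Ah + Ag - Agh) (h1 : l * qh = Ah - χh * M) (h2 : l * qg = Ag - χg * M)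
    (h3 : l * qgh = Agh - χgh * M) (h4 : χg + χh = χgh + l * ep) :
    A + qgh = M * ep + (qh + qg) := by
  refine mul_left_cancel₀ hl ?_
  linear_combination h0 + h3 - h1 - h2 + M * h4

section

variable {F K E : Type} [Field F] [IsAlgClosed F] [Field K] [Algebra F[X] K] [Field E]
  [Algebra K E] [Algebra F E] [IsAlgClosure K E] {ℓ : ℕ} [NeZero ℓ] {s : F}
  {ζ : F} {v : AbsoluteValue E ℝ} {f : K[X]}

/-- The units `-θ`. -/
noncomputable def ngU (θ : E) : Eˣ := if h : θ = 0 then 1 else Units.mk0 (-θ) (neg_ne_zero.2 h)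

lemma ngU_coe {θ : E} (h : θ ≠ 0) : (ngU θ : E) = -θ := by
  unfold ngU
  rw [dif_neg h]
  rfl

/-- The cochain with the values `∏ (-θ) ^ (wt θ ε g h θ)` over the roots at infinity. -/
noncomputable def infC (v : AbsoluteValue E ℝ) (p : E[X]) (ε : E → ℤ) : Eˣ :=
  ∏ θ ∈ nrI v p, ngU θ ^ ((wt p θ : ℤ) * ε θ)

variable [hG : IsGood ℓ (f.map (algebraMap K E))]

/-- The condition of the special fibre. -/
theorem exists_condU (hℓ : ℓ.Prime) (hℓF : (ℓ : F) ≠ 0) (hζ : IsPrimitiveRoot ζ ℓ)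
    (hL : LocF F K s v) {res : E → F} (hres : ∀ θ, v θ ≤ 1 → v (θ - algebraMap F E (res θ)) < 1)
    (hlead : v (cInf v (f.map (algebraMap K E))) = 1)
    {ϖ : E} {χ : (E ≃ₐ[K] E) → ℕ} (hχ : IsChi ℓ (algebraMap F[X] K (C ζ)) ϖ χ)
    (hϖ : ϖ ^ ℓ = algebraMap K E (algebraMap F[X] K X) - algebraMap F E s)
    {b : (E ≃ₐ[K] E) → (E ≃ₐ[K] E) → (FunField ℓ (f.map (algebraMap K E)))ˣ}
    {C : (E ≃ₐ[K] E) → (Pt ℓ (f.map (algebraMap K E)) →₀ ℤ)} (hu : LUnr F s b)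
    {e : (E ≃ₐ[K] E) → E → ℤ} {ε : (E ≃ₐ[K] E) → (E ≃ₐ[K] E) → E → ℤ}
    {Q : Jac ℓ (f.map (algebraMap K E))}
    {m : (E ≃ₐ[K] E) → (FunField ℓ (f.map (algebraMap K E)))ˣ}
    {a₀ : (E ≃ₐ[K] E) → (E ≃ₐ[K] E) → Eˣ} (hD : RamData b C e ε Q m a₀)
    (ha₀ : ∃ n : ℕ, n.Coprime ℓ ∧ IsCoboundary fun g h => (a₀ g h * infC v (f.map (algebraMap K E)) (ε g h)) ^ n)
    (M : F → ℤ)
    (hM : ∀ g r, (ℓ : ℤ) ∣ ∑ θ ∈ nr F v (f.map (algebraMap K E)) r,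
      (wt (f.map (algebraMap K E)) θ : ℤ) * e g θ - χ g * M r) :
    ∃ c : ℤ, ∀ r : F, (ℓ : ℤ) ∣ M r - c * ∑ θ ∈ nr F v (f.map (algebraMap K E)) r,
      (wt (f.map (algebraMap K E)) θ : ℤ) := by
  have hg0 : f.map (algebraMap K E) ≠ 0 := f_ne_zero ℓ _
  obtain ⟨p, hp⟩ : ∃ p : E[X], p = f.map (algebraMap K E) := ⟨_, rfl⟩
  have hmemr : ∀ θ, θ ∈ (f.map (algebraMap K E)).roots.toFinset ↔
      (f.map (algebraMap K E)).eval θ = 0 := u_mem_roots hg0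
  have hmemo : ∀ t θ, θ ∈ nr F v (f.map (algebraMap K E)) t ↔
      (f.map (algebraMap K E)).eval θ = 0 ∧ v (θ - algebraMap F E t) < 1 := by
    intro t θ
    unfold nr
    rw [Finset.mem_filter, hmemr]
  have hclS : ∀ (g : E ≃ₐ[K] E), ∀ θ ∈ (f.map (algebraMap K E)).roots.toFinset,
      g θ ∈ (f.map (algebraMap K E)).roots.toFinset := by
    intro g θ hθ
    rw [hmemr] at hθ ⊢
    exact u_root g hθ
  have hclO : ∀ (t : F) (g : E ≃ₐ[K] E), ∀ θ ∈ nr F v (f.map (algebraMap K E)) t,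
      g θ ∈ nr F v (f.map (algebraMap K E)) t := fun t g θ h => u_nr_stable hL hg0 g h
  have hE : IsAlgClosed E := IsAlgClosure.isAlgClosed K
  -- the special fibre
  obtain ⟨κ, _, _, x, y, hF⟩ := exists_fibU hℓ hζ (resS v (f.map (algebraMap K E)) res)
    (fun r => ∑ θ ∈ nr F v (f.map (algebraMap K E)) r, wt (f.map (algebraMap K E)) θ)
  have hℓκ : (ℓ : κ) ≠ 0 := by
    rw [← map_natCast (algebraMap F κ)]
    exact (_root_.map_ne_zero _).mpr hℓF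
  have hζκ : IsPrimitiveRoot (algebraMap F κ ζ) ℓ :=
    hζ.map_of_injective (algebraMap F κ).injective
  have hcl : IsAlgClosure (Hk ℓ κ) (Tk κ) := isAlgClosure_Hk hζκ
  obtain ⟨i, hi⟩ := exists_isEmbV ℓ hL κ
  obtain ⟨jE, hj⟩ : ∃ jE : E →+* Tk κ,
      ∀ z : K, jE (algebraMap K E z) = algebraMap (Hk ℓ κ) (Tk κ) (i z) := by
    let _ : Algebra K (Tk κ) := ((algebraMap (Hk ℓ κ) (Tk κ)).comp i).toAlgebra
    have hKE : Algebra.IsAlgebraic K E := IsAlgClosure.isAlgebraic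
    exact ⟨((IsAlgClosed.lift : E →ₐ[K] Tk κ) : E →+* Tk κ), fun z =>
      (IsAlgClosed.lift : E →ₐ[K] Tk κ).commutes z⟩
  obtain ⟨Y, hY⟩ := exists_YU hℓ hℓF hζ hL hres hlead hi jE hj hF
  obtain ⟨ψ, hψc, hψx, hψy⟩ := exists_psi hi.emb jE hj hF.inj f Y hY
  obtain ⟨r, hr⟩ := exists_resE (i := i) jE hj
  obtain ⟨A₀, hA₀c, hA₀⟩ := hu κ i ψ r hi.emb (fun z => by rw [hψc, hj]) ⟨_, hψx.symm⟩
    ⟨_, hψy.symm⟩ (fun g z => by rw [hψc, hψc, hr])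
  have hsym := psi_symU (f := f) hi.emb jE ψ hψc ⟨_, hψx.symm⟩ ⟨_, hψy.symm⟩ r hr
  obtain ⟨n, hn, β, hβc, hβ⟩ := ha₀
  have hχ' := isChi_comp hχ (by rw [hϖ, hL.compat, map_sub, map_sub]) hζ hi.emb jE hj r hr
  obtain ⟨ρ, -, hρ, hρ', hρg, -, -⟩ := exists_rhoU hℓ hζ hL hres hi jE hj hF.inj r hr
  have hx0 : ∀ t : F, x - algebraMap F κ t ≠ 0 := by
    intro t h0
    have h3 := hF.inj (X - Polynomial.C t) (by rw [map_sub, aeval_X, aeval_C, h0])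
    exact X_sub_C_ne_zero _ h3
  -- the units
  obtain ⟨J₀, hJ₀⟩ : ∃ J₀ : κˣ →* (Tk κ)ˣ, ∀ z : κˣ,
      ((J₀ z : (Tk κ)ˣ) : Tk κ) = algebraMap (Hk ℓ κ) (Tk κ) (cH ℓ (z : κ)) :=
    ⟨Units.map (((algebraMap (Hk ℓ κ) (Tk κ)).comp (cH ℓ) : κ →+* Tk κ) : κ →* Tk κ), fun _ => rfl⟩
  obtain ⟨X₀, hX₀⟩ : ∃ X₀ : F → κˣ, ∀ t, (X₀ t : κ) = x - algebraMap F κ t :=
    ⟨fun t => Units.mk0 _ (hx0 t), fun _ => rfl⟩
  obtain ⟨q, hq⟩ : ∃ q : (E → ℤ) → ℕ → F → ℤ, ∀ g t, (ℓ : ℤ) * q (e g) (χ g) t =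
      ∑ θ ∈ nr F v (f.map (algebraMap K E)) t,
        (wt (f.map (algebraMap K E)) θ : ℤ) * e g θ - χ g * M t :=
    ⟨fun e' k t => (∑ θ ∈ nr F v (f.map (algebraMap K E)) t,
      (wt (f.map (algebraMap K E)) θ : ℤ) * e' θ - k * M t) / ℓ,
      fun g t => Int.mul_ediv_cancel' (hM g t)⟩
  set Ψ : (FunField ℓ (f.map (algebraMap K E)))ˣ →* (Tk κ)ˣ :=
    Units.map (ψ : FunField ℓ (f.map (algebraMap K E)) →* Tk κ) with hΨ
  set J : Eˣ →* (Tk κ)ˣ := Units.map (jE : E →* Tk κ) with hJ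
  obtain ⟨B', hB'⟩ : ∃ B' : (E → ℤ) → ℕ → (Tk κ)ˣ, ∀ e' k, B' e' k =
      (∏ θ ∈ (f.map (algebraMap K E)).roots.toFinset,
        ρ θ ^ ((wt (f.map (algebraMap K E)) θ : ℤ) * e' θ)) *
      ∏ t ∈ resS v (f.map (algebraMap K E)) res, J₀ (X₀ t) ^ q e' k t :=
    ⟨_, fun _ _ => rfl⟩
  set u : κˣ := ∏ t ∈ resS v (f.map (algebraMap K E)) res, X₀ t ^ M t with hudef
  obtain ⟨lam, hlam1, hlam2⟩ : ∃ lam : E → (Tk κ)ˣ, (∀ θ, v θ ≤ 1 → lam θ = J₀ (X₀ (res θ))) ∧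
      ∀ θ, 1 < v θ → lam θ = J (ngU θ) :=
    ⟨fun θ => if v θ ≤ 1 then J₀ (X₀ (res θ)) else J (ngU θ), fun θ h => if_pos h, fun θ h => if_neg (not_le.2 h)⟩
  have hxs : ∀ θ, Ψ (xs θ) = lam θ * ρ θ ^ (ℓ : ℤ) := by
    intro θ
    apply Units.ext
    have h3 : ((xs θ : (FunField ℓ (f.map (algebraMap K E)))ˣ) :
        FunField ℓ (f.map (algebraMap K E))) = polyF (X - Polynomial.C θ) := coe_ofPoly _
    have h4 : ((Ψ (xs θ) : (Tk κ)ˣ) : Tk κ) = ψ (polyF (X - Polynomial.C θ)) := congrArg ψ h3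
    have h5 : ψ (polyF (X - Polynomial.C θ)) = algebraMap (Hk ℓ κ) (Tk κ) (cH ℓ x) - jE θ := by
      rw [map_sub, map_sub, hψx]
      exact congrArg _ (hψc θ)
    rw [h4, h5, Units.val_mul, zpow_natCast, Units.val_pow_eq_pow_val]
    by_cases h : v θ ≤ 1
    · rw [hlam1 θ h, hJ₀, hX₀, map_sub, map_sub, ← absT_const hL hi jE hj, mul_comm, hρ θ h]
    · have hθ0 : θ ≠ 0 := by
        rintro rfl
        rw [map_zero] at h
        exact h zero_le_one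
      have h6 : ((J (ngU θ) : (Tk κ)ˣ) : Tk κ) = jE (-θ) := congrArg jE (ngU_coe hθ0)
      rw [hlam2 θ (not_le.1 h), h6, mul_comm, hρ' θ (not_le.1 h)]
  have hFe : ∀ e' : E → ℤ, Ψ (Fe (ℓ := ℓ) (f.map (algebraMap K E)) e') =
      ∏ θ ∈ (f.map (algebraMap K E)).roots.toFinset,
        (lam θ * ρ θ ^ (ℓ : ℤ)) ^ ((wt (f.map (algebraMap K E)) θ : ℤ) * e' θ) := by
    intro e'
    unfold Fe
    rw [map_prod]
    refine Finset.prod_congr rfl fun θ _ => ?_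
    rw [map_zpow, hxs θ]
  have hℓ0 : (ℓ : ℤ) ≠ 0 := Int.natCast_ne_zero.mpr hℓ.ne_zero
  have hkey : ∀ g h : Tk κ ≃ₐ[Hk ℓ κ] Tk κ,
      Ψ (Fe (ℓ := ℓ) (f.map (algebraMap K E)) (ε (r g) (r h))) *
        B' (e (r (g * h))) (χ (r (g * h))) =
      J₀ u ^ ep ℓ χ (r g) (r h) * J (infC v (f.map (algebraMap K E)) (ε (r g) (r h))) *
        (Units.map ((g : Tk κ →ₐ[Hk ℓ κ] Tk κ) : Tk κ →* Tk κ) (B' (e (r h)) (χ (r h))) *
          B' (e (r g)) (χ (r g))) := by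
    intro g h
    have e1 : Units.map ((g : Tk κ →ₐ[Hk ℓ κ] Tk κ) : Tk κ →* Tk κ) (B' (e (r h)) (χ (r h))) =
        (∏ θ ∈ (f.map (algebraMap K E)).roots.toFinset,
          ρ θ ^ ((wt (f.map (algebraMap K E)) θ : ℤ) * e (r h) ((r g)⁻¹ θ))) *
        ∏ t ∈ resS v (f.map (algebraMap K E)) res,
          J₀ (X₀ t) ^ q (e (r h)) (χ (r h)) t := by
      rw [hB', map_mul, map_prod, map_prod]
      congr 1
      · refine Eq.trans ?_ (u_prod_comp _ (r g) hclS fun θ =>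
          ρ θ ^ ((wt (f.map (algebraMap K E)) θ : ℤ) * e (r h) ((r g)⁻¹ θ)))
        refine Finset.prod_congr rfl fun θ hθ => ?_
        rw [map_zpow]
        have e2 : Units.map ((g : Tk κ →ₐ[Hk ℓ κ] Tk κ) : Tk κ →* Tk κ) (ρ θ) = ρ (r g θ) :=
          Units.ext (hρg g θ)
        rw [e2, u_wt, ← AlgEquiv.mul_apply, inv_mul_cancel, AlgEquiv.one_apply]
      · refine Finset.prod_congr rfl fun t _ => ?_
        rw [map_zpow]
        congr 1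
        apply Units.ext
        rw [Units.coe_map, hJ₀]
        exact g.commutes _
    have e3 : J₀ u ^ ep ℓ χ (r g) (r h) = (∏ t ∈ resS v (f.map (algebraMap K E)) res,
        J₀ (X₀ t) ^ M t) ^ (ep ℓ χ (r g) (r h) : ℤ) := by
      rw [zpow_natCast, hudef, map_prod]
      congr 1
      exact Finset.prod_congr rfl fun t _ => map_zpow J₀ _ _
    have e4 : J (infC v (f.map (algebraMap K E)) (ε (r g) (r h))) = ∏ θ ∈ nrI v (f.map (algebraMap K E)),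
        lam θ ^ ((wt (f.map (algebraMap K E)) θ : ℤ) * ε (r g) (r h) θ) := by
      unfold infC
      rw [map_prod]
      refine Finset.prod_congr rfl fun θ hθ => ?_
      unfold nrI at hθ
      rw [Finset.mem_filter] at hθ
      rw [map_zpow, hlam2 θ hθ.2]
    rw [hFe, e1, e3, e4, hB' (e (r (g * h))), hB' (e (r g))]
    refine c_key hL.ctx (f.map (algebraMap K E)) hres (fun t => J₀ (X₀ t)) lam ρ
      (fun θ => (wt (f.map (algebraMap K E)) θ : ℤ)) ℓ (ε (r g) (r h))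
      (fun θ => e (r h) ((r g)⁻¹ θ)) (e (r g)) (e (r (g * h))) M (q (e (r h)) (χ (r h)))
      (q (e (r g)) (χ (r g))) (q (e (r (g * h))) (χ (r (g * h)))) _ (fun θ hθ => ?_) (fun t _ => ?_)
      fun t _ θ hθ => ?_
    · rw [map_mul r]
      exact hD.eps (r g) (r h) θ ((hmemr θ).1 hθ)
    · refine c_arith hℓ0 ?_ (hq (r h) t) (hq (r g) t) (hq (r (g * h)) t) ?_
      · rw [Finset.mul_sum]
        have e4 : ∑ θ ∈ nr F v (f.map (algebraMap K E)) t,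
            (wt (f.map (algebraMap K E)) θ : ℤ) * e (r h) θ =
            ∑ θ ∈ nr F v (f.map (algebraMap K E)) t,
              (wt (f.map (algebraMap K E)) θ : ℤ) * e (r h) ((r g)⁻¹ θ) := by
          have e6 := u_prod_comp (N := Multiplicative ℤ) _ (r g)⁻¹ (hclO t) (fun θ => Multiplicative.ofAdd
            ((wt (f.map (algebraMap K E)) θ : ℤ) * e (r h) θ))
          have e7 : ∑ θ ∈ nr F v (f.map (algebraMap K E)) t,
              (wt (f.map (algebraMap K E)) ((r g)⁻¹ θ) : ℤ) * e (r h) ((r g)⁻¹ θ) =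
              ∑ θ ∈ nr F v (f.map (algebraMap K E)) t, (wt (f.map (algebraMap K E)) θ : ℤ) * e (r h) θ := e6
          rw [← e7]
          refine Finset.sum_congr rfl fun θ _ => ?_
          rw [u_wt]
        rw [e4, ← Finset.sum_add_distrib, ← Finset.sum_sub_distrib]
        refine Finset.sum_congr rfl fun θ hθ => ?_
        have e5 := hD.eps (r g) (r h) θ ((hmemo t θ).1 hθ).1
        rw [← map_mul r] at e5
        linear_combination (wt (f.map (algebraMap K E)) θ : ℤ) * e5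
      · have e6 := hχ.add_eq (r g) (r h)
        rw [← map_mul r] at e6
        exact_mod_cast e6
    · have h1 := hθ
      rw [← u_filter hL.ctx hres, Finset.mem_filter, Finset.mem_filter] at h1
      rw [hlam1 θ h1.1.2, h1.2]
  -- the cochain
  set A : (Tk κ ≃ₐ[Hk ℓ κ] Tk κ) → (Tk κ)ˣ := fun g =>
    A₀ g ^ n * ((Ψ (m (r g)) * B' (e (r g)) (χ (r g))) ^ n)⁻¹ * (J (β (r g)))⁻¹ with hAdef
  have hBc : IsCts fun g => B' (e (r g)) (χ (r g)) :=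
    (hD.cts_e.comp_r jE r hr).comp₂ (hχ.cts.comp_r jE r hr) B'
  have hAc : IsCts A := (hA₀c.comp₂ ((hD.cts_m.comp_r jE r hr).comp₂ hBc
    fun w z => Ψ w * z) fun u w => u ^ n * (w ^ n)⁻¹).comp₂
    (hβc.comp_r jE r hr) fun u w => u * (J w)⁻¹
  have hA : ∀ g h, algebraMap (Hk ℓ κ) (Tk κ) (cH ℓ (u : κ) ^ n) ^ ep ℓ (fun g => χ (r g)) g h *
      A (g * h) = g (A h) * A g := by
    intro g h
    set γ : (Tk κ)ˣ →* (Tk κ)ˣ := Units.map ((g : Tk κ →ₐ[Hk ℓ κ] Tk κ) : Tk κ →* Tk κ) with hγ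
    have h1 : Ψ (b (r g) (r h)) * A₀ (g * h) = γ (A₀ h) * A₀ g := Units.ext (hA₀ g h)
    have h2 : Ψ (b (r g) (r h)) * (Ψ (m (r (g * h))) * B' (e (r (g * h))) (χ (r (g * h)))) =
        J₀ u ^ ep ℓ χ (r g) (r h) * J (a₀ (r g) (r h) * infC v (f.map (algebraMap K E)) (ε (r g) (r h))) *
          (γ (Ψ (m (r h)) * B' (e (r h)) (χ (r h))) * (Ψ (m (r g)) * B' (e (r g)) (χ (r g)))) := by
      have e1 := congrArg Ψ (hD.eq (r g) (r h))
      have e2 : Ψ (cstU (a₀ (r g) (r h))) = J (a₀ (r g) (r h)) := Units.ext (hψc _)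
      have e3 : Ψ (symU (gs f (r g)) (m (r h))) = γ (Ψ (m (r h))) := Units.ext (hsym g _)
      rw [map_mul, map_mul, map_mul, map_mul, e2, e3, ← map_mul r] at e1
      rw [← mul_assoc, e1, map_mul γ, map_mul J]
      have e4 := hkey g h
      generalize Ψ (Fe (ℓ := ℓ) (f.map (algebraMap K E)) (ε (r g) (r h))) = P1 at e4 ⊢
      generalize B' (e (r (g * h))) (χ (r (g * h))) = P2 at e4 ⊢
      generalize J₀ u ^ ep ℓ χ (r g) (r h) = P3 at e4 ⊢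
      generalize γ (B' (e (r h)) (χ (r h))) = P4 at e4 ⊢
      generalize B' (e (r g)) (χ (r g)) = P5 at e4 ⊢
      generalize J (a₀ (r g) (r h)) = P6
      generalize γ (Ψ (m (r h))) = P7
      generalize Ψ (m (r g)) = P8
      generalize J (infC v (f.map (algebraMap K E)) (ε (r g) (r h))) = P9 at e4 ⊢
      calc P1 * P6 * (P7 * P8) * P2 = P1 * P2 * (P6 * (P7 * P8)) := by
            rw [mul_right_comm, mul_right_comm P1 P6 P2, mul_assoc (P1 * P2)]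
        _ = P3 * P9 * (P4 * P5) * (P6 * (P7 * P8)) := by rw [e4]
        _ = P3 * (P6 * P9) * (P7 * P4 * (P8 * P5)) := by
            rw [mul_mul_mul_comm, mul_comm (P4 * P5), mul_mul_mul_comm P7 P8 P4 P5, mul_assoc P3 P9, mul_comm P9]
    have h3 : J (a₀ (r g) (r h) * infC v (f.map (algebraMap K E)) (ε (r g) (r h))) ^ n * J (β (r (g * h))) =
        γ (J (β (r h))) * J (β (r g)) := by
      have e1 := congrArg jE (hβ (r g) (r h))
      apply Units.ext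
      rw [map_mul, map_mul, hr, Units.val_pow_eq_pow_val, map_pow, ← map_mul r] at e1
      rw [Units.val_mul, Units.val_pow_eq_pow_val, Units.val_mul]
      exact e1
    have key := c_mul_aux (n := n) h1 h2 h3
    have e4 : γ (A h) * A g = (γ (A₀ h) ^ n *
        (γ (Ψ (m (r h)) * B' (e (r h)) (χ (r h))) ^ n)⁻¹ * (γ (J (β (r h))))⁻¹) *
        (A₀ g ^ n * ((Ψ (m (r g)) * B' (e (r g)) (χ (r g))) ^ n)⁻¹ * (J (β (r g)))⁻¹) := by
      rw [hAdef]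
      simp only [map_mul, map_inv, map_pow]
    have e5 : ((J₀ u ^ ep ℓ χ (r g) (r h)) ^ n * A (g * h) : (Tk κ)ˣ) = γ (A h) * A g := by
      rw [e4, ← key]
    have e6 := congrArg Units.val e5
    rw [Units.val_mul, Units.val_mul, Units.val_pow_eq_pow_val, Units.val_pow_eq_pow_val,
      hJ₀] at e6
    rw [map_pow, ← pow_mul, mul_comm n, pow_mul]
    exact e6
  obtain ⟨c₀, hc₀⟩ := IsAlgClosed.exists_pow_nat_eq ((-1 : F) ^ (ℓ - 1)) hℓ.pos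
  have hu0 : cH ℓ (u : κ) ^ n ≠ 0 :=
    pow_ne_zero _ ((_root_.map_ne_zero _).mpr u.ne_zero)
  obtain ⟨m', w, hm', hw⟩ := lc_pow hζκ hℓκ (c := algebraMap F κ c₀)
    (by rw [← map_pow, hc₀, map_pow, map_neg, map_one]) hχ' (cH ℓ (u : κ) ^ n) hu0 A hAc hA
  obtain ⟨c, hc⟩ := hF.kum M (n * m') (hn.mul_left hm') w (by
    rw [← hw, ← map_pow, c_lcH, pow_mul, hudef, Units.coe_prod]
    congr 2
    refine Finset.prod_congr rfl fun t _ => ?_
    rw [Units.val_zpow_eq_zpow_val, hX₀])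
  refine ⟨c, fun t => ?_⟩
  by_cases ht : t ∈ resS v (f.map (algebraMap K E)) res
  · have h1 := hc t ht
    rw [Nat.cast_sum] at h1
    exact h1
  · have h1 : nr F v (f.map (algebraMap K E)) t = ∅ := u_mem_res hL.ctx hres ht
    obtain ⟨σ, hσ⟩ := exists_chi_one hL hℓF hζ hχ hϖ
    have h2 := hM σ t
    rw [h1, Finset.sum_empty, hσ, Nat.cast_one, one_mul, zero_sub, dvd_neg] at h2
    rw [h1, Finset.sum_empty, mul_zero, sub_zero]
    exact h2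

end

end Pool.Agent.Lib.MP_89bcae_ag.Zu
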