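import Mathlib
import Pool.Agent.Lib.MP_89bcae_ag.Zu.Cond

/-!
# The local form of an unramified cocycle over the local field, with roots at infinity
-/

attribute [local instance 100000] Pool.Agent.Lib.MP_89bcae_ag.Brt.tffFields
attribute [local instance 100000] Pool.Agent.Lib.MP_89bcae_ag.Wt.ifrNF Pool.Agent.Lib.MP_89bcae_ag.Wt.iddNF

open Polynomial IsDedekindDomain IsLocalRing

open scoped Classical

namespace Pool.Agent.Lib.MP_89bcae_ag.Zu

open Pool.Agent.Lib.MP_89bcae_ag.Wt Pool.Agent.Lib.MP_89bcae_ag.Wt.Lns Pool.Agent.Lib.MP_89bcae_ag.Bra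
  Pool.Agent.Lib.MP_89bcae_ag.Brt

open Pool.Agent.Lib.MP_89bcae_ag.Zm (nr nrI)

section

variable {F K E : Type} [Field F] [IsAlgClosed F] [Field K] [Algebra F[X] K] [Field E]
  [Algebra K E] [Algebra F E] [IsAlgClosure K E] {ℓ : ℕ} {s : F}
  {ζ : F} {v : AbsoluteValue E ℝ} {f : K[X]}

omit [IsAlgClosed F] [Algebra F[X] K] [Algebra F E] in
private lemma b_stable (T : Finset E) : ∃ T' : Finset E, T ⊆ T' ∧
    ∀ g : E ≃ₐ[K] E, ∀ x ∈ T', g x ∈ T' := by
  have hint : ∀ x : E, IsIntegral K x := fun x =>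
    (IsAlgClosure.isAlgebraic.isAlgebraic x).isIntegral
  refine ⟨T.biUnion fun x => ((minpoly K x).aroots E).toFinset, fun x hx => ?_, fun g x hx => ?_⟩
  · refine Finset.mem_biUnion.mpr ⟨x, hx, ?_⟩
    rw [Multiset.mem_toFinset, mem_aroots]
    exact ⟨minpoly.ne_zero (hint x), minpoly.aeval K x⟩
  · obtain ⟨y, hy, hxy⟩ := Finset.mem_biUnion.mp hx
    refine Finset.mem_biUnion.mpr ⟨y, hy, ?_⟩
    rw [Multiset.mem_toFinset, mem_aroots] at hxy ⊢
    refine ⟨hxy.1, ?_⟩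
    have h1 : aeval (g x) (minpoly K y) = g (aeval x (minpoly K y)) :=
      aeval_algHom_apply (g : E →ₐ[K] E) x _
    rw [h1, hxy.2, map_zero]

/-- The cochain of the roots at infinity is a cocycle. -/
lemma infC_cocycle (hL : LocF F K s v) (hℓ0 : ℓ ≠ 0) (hp0 : f.map (algebraMap K E) ≠ 0)
    {e : (E ≃ₐ[K] E) → E → ℤ} {ε : (E ≃ₐ[K] E) → (E ≃ₐ[K] E) → E → ℤ} (he : IsCts e)
    (heps : ∀ g h θ, (f.map (algebraMap K E)).eval θ = 0 →
      (ℓ : ℤ) * ε g h θ = e h (g⁻¹ θ) + e g θ - e (g * h) θ) :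
    IsCocycle (K := K) fun g h => infC v (f.map (algebraMap K E)) (ε g h) := by
  have hℓ' : (ℓ : ℤ) ≠ 0 := Int.natCast_ne_zero.mpr hℓ0
  have hroot : ∀ θ ∈ nrI v (f.map (algebraMap K E)), (f.map (algebraMap K E)).eval θ = 0 := by
    intro θ hθ
    unfold nrI at hθ
    rw [Finset.mem_filter, u_mem_roots hp0] at hθ
    exact hθ.1
  have hng : ∀ (g : E ≃ₐ[K] E) (θ : E), Units.map ((g : E →ₐ[K] E) : E →* E) (ngU θ) = ngU (g θ) := by
    intro g θ
    apply Units.ext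
    show g (ngU θ : E) = (ngU (g θ) : E)
    by_cases h : θ = 0
    · subst h
      unfold ngU
      rw [map_zero, dif_pos rfl, Units.val_one, map_one]
    · rw [ngU_coe h, ngU_coe ((_root_.map_ne_zero g).2 h), map_neg]
  refine ⟨fun g h j => ?_, ?_⟩
  · -- the identity
    have h1 : infC v (f.map (algebraMap K E)) (ε g h) * infC v (f.map (algebraMap K E)) (ε (g * h) j) =
        Units.map ((g : E →ₐ[K] E) : E →* E) (infC v (f.map (algebraMap K E)) (ε h j)) *
          infC v (f.map (algebraMap K E)) (ε g (h * j)) := by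
      have e1 : Units.map ((g : E →ₐ[K] E) : E →* E) (infC v (f.map (algebraMap K E)) (ε h j)) =
          ∏ θ ∈ nrI v (f.map (algebraMap K E)), ngU θ ^ ((wt (f.map (algebraMap K E)) θ : ℤ) * ε h j (g⁻¹ θ)) := by
        unfold infC
        rw [map_prod, ← u_prod_comp (nrI v (f.map (algebraMap K E))) g (fun g θ h => u_inf_stable hL hp0 g h)
          (fun θ => ngU θ ^ ((wt (f.map (algebraMap K E)) θ : ℤ) * ε h j (g⁻¹ θ)))]
        refine Finset.prod_congr rfl fun θ _ => ?_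
        rw [map_zpow, hng, u_wt, ← AlgEquiv.mul_apply, inv_mul_cancel, AlgEquiv.one_apply]
      rw [e1]
      unfold infC
      rw [← Finset.prod_mul_distrib, ← Finset.prod_mul_distrib]
      refine Finset.prod_congr rfl fun θ hθ => ?_
      rw [← zpow_add, ← zpow_add]
      congr 1
      have hθ0 := hroot θ hθ
      have e2 := heps g h θ hθ0
      have e3 := heps (g * h) j θ hθ0
      have e4 := heps h j (g⁻¹ θ) (u_root g⁻¹ hθ0)
      have e5 := heps g (h * j) θ hθ0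
      have e6 : (g * h)⁻¹ θ = h⁻¹ (g⁻¹ θ) := by rw [mul_inv_rev, AlgEquiv.mul_apply]
      rw [e6] at e3
      rw [← mul_assoc] at e5
      have e7 : ε g h θ + ε (g * h) j θ = ε h j (g⁻¹ θ) + ε g (h * j) θ := by
        apply mul_left_cancel₀ hℓ'
        linear_combination e2 + e3 - e4 - e5
      linear_combination (wt (f.map (algebraMap K E)) θ : ℤ) * e7
    have h2 := congrArg Units.val h1
    rw [Units.val_mul, Units.val_mul] at h2
    exact h2
  · -- continuity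
    obtain ⟨Te, hTe⟩ := he
    obtain ⟨Te', hsub, hst⟩ := b_stable (K := K) Te
    refine ⟨Te' ∪ (f.map (algebraMap K E)).roots.toFinset, fun g g' h h' hg hh => ?_⟩
    have hg2 : ∀ x ∈ Te', g x = g' x := fun x hx => hg x (Finset.mem_union_left _ hx)
    have hh2 : ∀ x ∈ Te', h x = h' x := fun x hx => hh x (Finset.mem_union_left _ hx)
    have e2 : e (g * h) = e (g' * h') := hTe _ _ fun x hx => by
      rw [AlgEquiv.mul_apply, AlgEquiv.mul_apply, hh2 x (hsub hx)]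
      exact hg2 _ (hst h' x (hsub hx))
    have e3 : e g = e g' := hTe _ _ fun x hx => hg2 x (hsub hx)
    have e4 : e h = e h' := hTe _ _ fun x hx => hh2 x (hsub hx)
    have e5 : ∀ θ, (f.map (algebraMap K E)).eval θ = 0 → g⁻¹ θ = g'⁻¹ θ := by
      intro θ hθ
      have h1 : (f.map (algebraMap K E)).eval (g⁻¹ θ) = 0 := u_root g⁻¹ hθ
      have h2 := hg (g⁻¹ θ) (Finset.mem_union_right _ ((u_mem_roots hp0 _).2 h1))
      rw [← AlgEquiv.mul_apply, mul_inv_cancel, AlgEquiv.one_apply] at h2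
      apply g'.injective
      rw [← h2, ← AlgEquiv.mul_apply, mul_inv_cancel, AlgEquiv.one_apply]
    unfold infC
    refine Finset.prod_congr rfl fun θ hθ => ?_
    congr 2
    have hθ0 := hroot θ hθ
    apply mul_left_cancel₀ hℓ'
    rw [heps g h θ hθ0, heps g' h' θ hθ0, e2, e3, e4, e5 θ hθ0]

omit [IsAlgClosed F] [Algebra F[X] K] [Algebra F E] [IsAlgClosure K E] in
private lemma cocycle_mul {b b' : (E ≃ₐ[K] E) → (E ≃ₐ[K] E) → Eˣ} (h : IsCocycle b) (h' : IsCocycle b') :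
    IsCocycle fun g h => b g h * b' g h := by
  obtain ⟨T, hT⟩ := h.continuous
  obtain ⟨T', hT'⟩ := h'.continuous
  refine ⟨fun g₁ g₂ g₃ => ?_, T ∪ T', fun g₁ g₁' g₂ g₂' h1 h2 => ?_⟩
  · have e1 := h.cocycle g₁ g₂ g₃
    have e2 := h'.cocycle g₁ g₂ g₃
    simp only [Units.val_mul, map_mul]
    linear_combination (b' g₁ g₂ * b' (g₁ * g₂) g₃ : E) * e1 + (g₁ (b g₂ g₃ : E) * b g₁ (g₂ * g₃)) * e2
  · show b g₁ g₂ * b' g₁ g₂ = b g₁' g₂' * b' g₁' g₂'
    rw [hT _ _ _ _ (fun x hx => h1 x (Finset.mem_union_left _ hx)) (fun x hx => h2 x (Finset.mem_union_left _ hx)),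
      hT' _ _ _ _ (fun x hx => h1 x (Finset.mem_union_right _ hx)) (fun x hx => h2 x (Finset.mem_union_right _ hx))]

/-- The sums over the roots near `r` are invariant. -/
private lemma b_sum (hL : LocF F K s v) (hp0 : f.map (algebraMap K E) ≠ 0) (g : E ≃ₐ[K] E) (r : F) (φ : E → ℤ) :
    ∑ θ ∈ nr F v (f.map (algebraMap K E)) r, (wt (f.map (algebraMap K E)) θ : ℤ) * φ (g⁻¹ θ) =
    ∑ θ ∈ nr F v (f.map (algebraMap K E)) r, (wt (f.map (algebraMap K E)) θ : ℤ) * φ θ := by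
  have e6 := u_prod_comp (N := Multiplicative ℤ) (nr F v (f.map (algebraMap K E)) r) g⁻¹
    (fun g θ h => u_nr_stable hL hp0 g h) (fun θ => Multiplicative.ofAdd
    ((wt (f.map (algebraMap K E)) θ : ℤ) * φ θ))
  have e7 : ∑ θ ∈ nr F v (f.map (algebraMap K E)) r, (wt (f.map (algebraMap K E)) (g⁻¹ θ) : ℤ) * φ (g⁻¹ θ) =
      ∑ θ ∈ nr F v (f.map (algebraMap K E)) r, (wt (f.map (algebraMap K E)) θ : ℤ) * φ θ := e6
  rw [← e7]
  refine Finset.sum_congr rfl fun θ _ => ?_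
  rw [u_wt]

variable [hG : IsGood ℓ (f.map (algebraMap K E))]

/-- The main step. -/
theorem cluster_baseU (hℓ : ℓ.Prime) (hℓF : (ℓ : F) ≠ 0) (hζ : IsPrimitiveRoot ζ ℓ)
    (hL : LocF F K s v) (hsep : (f.map (algebraMap K E)).Separable)
    (hlead : v (cInf v (f.map (algebraMap K E))) = 1)
    {b : (E ≃ₐ[K] E) → (E ≃ₐ[K] E) → (FunField ℓ (f.map (algebraMap K E)))ˣ}
    {C : (E ≃ₐ[K] E) → (Pt ℓ (f.map (algebraMap K E)) →₀ ℤ)} (hb : ICoc b) (hC : IDiv b C)
    (hNZ : NeZero ℓ) (hu : LUnr F s b) (hz : (algebraMap F E ζ) ^ ℓ = 1)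
    (Q' : Jac ℓ (f.map (algebraMap K E)))
    (hQ' : ∀ g, cl (C g) - zJ (algebraMap F E ζ) hz (cl (C g)) = symJ (gs f g) Q' - Q') :
    ∃ (Q : Jac ℓ (f.map (algebraMap K E))) (e : (E ≃ₐ[K] E) → E → ℤ),
      (∀ g, cl (C g) = symJ (gs f g) Q - Q + rm (e g)) ∧
      ∀ g r, (ℓ : ℤ) ∣ ∑ θ ∈ nr F v (f.map (algebraMap K E)) r, e g θ := by
  have hEc : IsAlgClosed E := IsAlgClosure.isAlgClosed K
  obtain ⟨ϖ, hϖ⟩ := IsAlgClosed.exists_pow_nat_eq
    (algebraMap K E (algebraMap F[X] K X) - algebraMap F E s) hℓ.pos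
  have hϖ0 : ϖ ≠ 0 := by
    rintro rfl
    rw [zero_pow hℓ.ne_zero] at hϖ
    exact hL.ctx.ne (sub_eq_zero.mp hϖ.symm)
  have hzK : IsPrimitiveRoot (algebraMap F[X] K (Polynomial.C ζ)) ℓ :=
    hζ.map_of_injective (f := (algebraMap F[X] K).comp Polynomial.C) (RingHom.injective _)
  have hzE : IsPrimitiveRoot (algebraMap F E ζ) ℓ := hζ.map_of_injective (algebraMap F E).injective
  have hϖK : ϖ ^ ℓ = algebraMap K E (algebraMap F[X] K (X - Polynomial.C s)) := by
    rw [hϖ, hL.compat, map_sub, map_sub]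
  obtain ⟨χ, hχ⟩ := exists_isChi hℓ hzK hϖ0 ⟨_, hϖK⟩
  have hz' : (algebraMap K E (algebraMap F[X] K (Polynomial.C ζ))) ^ ℓ = 1 := by
    rw [← hL.compat]
    exact hz
  have hf0 : f.map (algebraMap K E) ≠ 0 := f_ne_zero ℓ _
  obtain ⟨res, hres⟩ : ∃ res : E → F, ∀ θ, v θ ≤ 1 → v (θ - algebraMap F E (res θ)) < 1 := by
    refine ⟨fun θ => if h : v θ ≤ 1 then (hL.ctx.residue θ h).choose else 0, fun θ h1 => ?_⟩
    show v (θ - algebraMap F E (if h : v θ ≤ 1 then (hL.ctx.residue θ h).choose else 0)) < 1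
    rw [dif_pos h1]
    exact (hL.ctx.residue θ h1).choose_spec
  obtain ⟨e, ε, Q, m, a₀, hD⟩ := exists_ramData hzK hb hC hz' Q' (by
    intro g
    rw [G04_zJ_congr (hL.compat ζ).symm hz' hz]
    exact hQ' g)
  have ha₀ := brTriv_loc hℓ hℓF hL _ (cocycle_mul hD.coc (infC_cocycle hL hℓ.ne_zero hf0 hD.cts_e hD.eps))
  -- the numbers `M r`
  have hM : ∀ r : F, ∃ M : ℤ, ∀ g : E ≃ₐ[K] E,
      (ℓ : ℤ) ∣ ∑ θ ∈ nr F v (f.map (algebraMap K E)) r,
        (wt (f.map (algebraMap K E)) θ : ℤ) * e g θ - χ g * M := by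
    intro r
    obtain ⟨a, -, ha⟩ := hom_chi hL hℓF hζ hχ hϖ (A := ZMod ℓ)
      (fun g => ((∑ θ ∈ nr F v (f.map (algebraMap K E)) r,
        (wt (f.map (algebraMap K E)) θ : ℤ) * e g θ : ℤ) : ZMod ℓ))
      (by
        obtain ⟨T, hT⟩ := hD.cts_e
        refine ⟨T, fun g g' h => ?_⟩
        show ((∑ θ ∈ nr F v (f.map (algebraMap K E)) r,
          (wt (f.map (algebraMap K E)) θ : ℤ) * e g θ : ℤ) : ZMod ℓ) =
          ((∑ θ ∈ nr F v (f.map (algebraMap K E)) r,
          (wt (f.map (algebraMap K E)) θ : ℤ) * e g' θ : ℤ) : ZMod ℓ)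
        rw [hT g g' h])
      (by
        intro g h
        show ((∑ θ ∈ nr F v (f.map (algebraMap K E)) r,
          (wt (f.map (algebraMap K E)) θ : ℤ) * e (g * h) θ : ℤ) : ZMod ℓ) =
          ((∑ θ ∈ nr F v (f.map (algebraMap K E)) r,
          (wt (f.map (algebraMap K E)) θ : ℤ) * e g θ : ℤ) : ZMod ℓ) +
          ((∑ θ ∈ nr F v (f.map (algebraMap K E)) r,
          (wt (f.map (algebraMap K E)) θ : ℤ) * e h θ : ℤ) : ZMod ℓ)
        rw [← Int.cast_add, ← sub_eq_zero, ← Int.cast_sub, ZMod.intCast_zmod_eq_zero_iff_dvd]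
        rw [← b_sum hL hf0 g r (e h), ← Finset.sum_add_distrib, ← Finset.sum_sub_distrib]
        refine Finset.dvd_sum fun θ hθ => ?_
        have hθ' : (f.map (algebraMap K E)).eval θ = 0 := by
          unfold nr at hθ
          rw [Finset.mem_filter, u_mem_roots hf0] at hθ
          exact hθ.1
        refine ⟨-((wt (f.map (algebraMap K E)) θ : ℤ) * ε g h θ), ?_⟩
        have h1 := hD.eps g h θ hθ'
        linear_combination (wt (f.map (algebraMap K E)) θ : ℤ) * h1)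
      (by
        intro g
        rw [nsmul_eq_mul, ZMod.natCast_self, zero_mul])
    refine ⟨(a.val : ℤ), fun g => ?_⟩
    have h1 := ha g
    rw [← ZMod.intCast_zmod_eq_zero_iff_dvd, Int.cast_sub, h1, nsmul_eq_mul, Int.cast_mul,
      Int.cast_natCast, Int.cast_natCast, ZMod.natCast_val, ZMod.cast_id, sub_self]
  choose M hM using hM
  obtain ⟨c, hc⟩ := exists_condU hℓ hℓF hζ hL hres hlead hχ hϖ hu hD ha₀ M (fun g r => hM r g)
  refine ⟨Q, fun g θ => e g θ - χ g * c, fun g => ?_, fun g r => ?_⟩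
  · rw [hD.cl g]
    congr 1
    have h1 : (rm (fun θ => e g θ - χ g * c) : Jac ℓ (f.map (algebraMap K E))) =
        rm (e g) - rm (fun _ => (χ g : ℤ) * c) := rm_sub _ _
    have h2 : (rm (fun _ => (χ g : ℤ) * c) : Jac ℓ (f.map (algebraMap K E))) = 0 :=
      (rm_eq_zero_iff _ hzE _).2 ⟨(χ g : ℤ) * c, fun θ _ => by rw [sub_self]; exact dvd_zero _⟩
    rw [h1, h2, sub_zero]
  · have hw : ∀ θ ∈ nr F v (f.map (algebraMap K E)) r, (wt (f.map (algebraMap K E)) θ : ℤ) = 1 := by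
      intro θ hθ
      unfold nr at hθ
      rw [Finset.mem_filter, Multiset.mem_toFinset] at hθ
      have h4 : 0 < wt (f.map (algebraMap K E)) θ := by
        unfold wt
        rw [rootMultiplicity_pos hf0]
        exact (mem_roots hf0).mp hθ.1
      have h5 : wt (f.map (algebraMap K E)) θ ≤ 1 := by
        unfold wt
        exact rootMultiplicity_le_one_of_separable hsep θ
      have h6 : wt (f.map (algebraMap K E)) θ = 1 := by omega
      rw [h6, Nat.cast_one]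
    have h1 := dvd_add (hM r g) ((hc r).mul_left (χ g : ℤ))
    have h2 : ∑ θ ∈ nr F v (f.map (algebraMap K E)) r, (e g θ - χ g * c) =
        ∑ θ ∈ nr F v (f.map (algebraMap K E)) r, (wt (f.map (algebraMap K E)) θ : ℤ) * e g θ - χ g * M r +
        χ g * (M r - c * ∑ θ ∈ nr F v (f.map (algebraMap K E)) r, (wt (f.map (algebraMap K E)) θ : ℤ)) := by
      rw [Finset.sum_congr rfl hw, Finset.sum_sub_distrib,
        Finset.sum_congr rfl (fun θ hθ => by rw [hw θ hθ, one_mul] :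
          ∀ θ ∈ nr F v (f.map (algebraMap K E)) r, (wt (f.map (algebraMap K E)) θ : ℤ) * e g θ = e g θ),
        Finset.sum_const, Finset.sum_const]
      simp only [nsmul_eq_mul, mul_one]
      ring
    rw [h2]
    exact h1

end

end Pool.Agent.Lib.MP_89bcae_ag.Zu
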