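import Mathlib
import Pool.Agent.Lib.MP_89bcae_ag.Zu.Base
import Pool.Agent.Lib.MP_89bcae_ag.Zc.Orb

/-!
# The local form of an unramified cocycle, with roots at infinity
-/

attribute [local instance 100000] Pool.Agent.Lib.MP_89bcae_ag.Brt.tffFields
attribute [local instance 100000] Pool.Agent.Lib.MP_89bcae_ag.Wt.ifrNF Pool.Agent.Lib.MP_89bcae_ag.Wt.iddNF

open Polynomial IsDedekindDomain IsLocalRing

open scoped Classical

namespace Pool.Agent.Lib.MP_89bcae_ag.Zu

open Pool.Agent.Lib.MP_89bcae_ag.Wt Pool.Agent.Lib.MP_89bcae_ag.Wt.Lns Pool.Agent.Lib.MP_89bcae_ag.Bra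
  Pool.Agent.Lib.MP_89bcae_ag.Brt

open Pool.Agent.Lib.MP_89bcae_ag.Zm (nr nrI)

open Pool.Agent.Lib.MP_89bcae_ag.Zc (io io_sub)

section

variable {F K E : Type} [Field F] [IsAlgClosed F] [Field K] [Algebra F[X] K] [Field E]
  [Algebra K E] [Algebra F E] [IsAlgClosure K E] {s : F} {v : AbsoluteValue E ℝ}

omit [IsAlgClosed F] [IsAlgClosure K E] in
/-- The values of the polynomials. -/
lemma v_io (hL : LocF F K s v) {q : F[X]} (hq : q.eval s ≠ 0) : v (io F K E q) = 1 := by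
  have h1 := io_sub (K := K) (E := E) hL q
  have h2 := hL.ctx.const _ hq
  have h3 := hL.ctx.nonarch (io F K E q - algebraMap F E (q.eval s)) (algebraMap F E (q.eval s))
  rw [sub_add_cancel, h2] at h3
  refine le_antisymm (h3.trans (max_le h1.le le_rfl)) ?_
  by_contra h4
  push Not at h4
  have h5 := hL.ctx.nonarch (io F K E q) (-(io F K E q - algebraMap F E (q.eval s)))
  rw [v.map_neg] at h5
  have h6 : io F K E q + -(io F K E q - algebraMap F E (q.eval s)) = algebraMap F E (q.eval s) := by ring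
  rw [h6, h2] at h5
  exact absurd h5 (not_le.2 (max_lt h4 h1))

/-- The constant of the special fibre has the value `1`. -/
theorem cInf_val (hL : LocF F K s v) {φ : F[X][X]} (hφ : φ.map (evalRingHom s) ≠ 0) {p : E[X]}
    (hp : p = φ.map (io F K E)) : v (cInf v p) = 1 := by
  have hE : IsAlgClosed E := IsAlgClosure.isAlgClosed K
  have hinf : Infinite F := IsAlgClosed.instInfinite
  obtain ⟨res, hres⟩ : ∃ res : E → F, ∀ θ, v θ ≤ 1 → v (θ - algebraMap F E (res θ)) < 1 := by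
    refine ⟨fun θ => if h : v θ ≤ 1 then (hL.ctx.residue θ h).choose else 0, fun θ h1 => ?_⟩
    show v (θ - algebraMap F E (if h : v θ ≤ 1 then (hL.ctx.residue θ h).choose else 0)) < 1
    rw [dif_pos h1]
    exact (hL.ctx.residue θ h1).choose_spec
  obtain ⟨c, hc⟩ := Infinite.exists_notMem_finset (resS v p res ∪ (φ.map (evalRingHom s)).roots.toFinset)
  rw [Finset.mem_union, not_or, Multiset.mem_toFinset, mem_roots hφ, IsRoot.def] at hc
  have hc1 : (φ.eval (C c)).eval s ≠ 0 := by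
    have h1 : (φ.map (evalRingHom s)).eval c = (φ.eval (C c)).eval s := map_evalRingHom_eval s c φ
    rw [← h1]
    exact hc.2
  have hce : p.eval (algebraMap F E c) = io F K E (φ.eval (C c)) := by
    have h1 : io F K E (C c) = algebraMap F E c := (hL.compat c).symm
    rw [hp, ← h1, eval_map, eval₂_hom]
  have h1 : v (p.eval (algebraMap F E c)) = 1 := by
    rw [hce]
    exact v_io hL hc1
  have h2 := congrArg (eval (algebraMap F E c)) (u_prod p)
  rw [eval_mul, eval_C, eval_prod, u_fib hL.ctx hres] at h2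
  rw [h2, map_mul, map_mul, map_prod, map_prod] at h1
  have h3 : ∏ t ∈ resS v p res, v (∏ θ ∈ nr F v p t, eval (algebraMap F E c) ((X - C θ) ^ wt p θ)) = 1 := by
    refine Finset.prod_eq_one fun t ht => ?_
    rw [map_prod]
    refine Finset.prod_eq_one fun θ hθ => ?_
    unfold nr at hθ
    rw [Finset.mem_filter] at hθ
    have hct : c - t ≠ 0 := by
      rintro h0
      rw [sub_eq_zero] at h0
      exact hc.1 (h0 ▸ ht)
    have h4 : v (algebraMap F E c - θ) = 1 := by
      have h5 := hL.ctx.const _ hct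
      rw [map_sub] at h5
      have h6 := hL.ctx.nonarch (algebraMap F E c - algebraMap F E t) (-(θ - algebraMap F E t))
      have h7 : algebraMap F E c - algebraMap F E t + -(θ - algebraMap F E t) = algebraMap F E c - θ := by ring
      rw [h7, v.map_neg, h5] at h6
      refine le_antisymm (h6.trans (max_le le_rfl hθ.2.le)) ?_
      by_contra h8
      push Not at h8
      have h9 := hL.ctx.nonarch (algebraMap F E c - θ) (θ - algebraMap F E t)
      have h10 : algebraMap F E c - θ + (θ - algebraMap F E t) = algebraMap F E c - algebraMap F E t := by ring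
      rw [h10, h5] at h9
      exact absurd h9 (not_le.2 (max_lt h8 hθ.2))
    rw [eval_pow, eval_sub, eval_X, eval_C, map_pow, h4, one_pow]
  rw [h3, one_mul] at h1
  have h4 : ∀ θ ∈ nrI v p, v (eval (algebraMap F E c) ((X - C θ) ^ wt p θ)) = v ((-θ) ^ wt p θ) := by
    intro θ hθ
    unfold nrI at hθ
    rw [Finset.mem_filter] at hθ
    have h5 : v (algebraMap F E c) ≤ 1 := by
      by_cases h : c = 0
      · rw [h, map_zero, map_zero]
        exact zero_le_one
      · exact (hL.ctx.const _ h).le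
    have h6 := hL.ctx.nonarch (algebraMap F E c) (-θ)
    rw [v.map_neg, ← sub_eq_add_neg] at h6
    have h7 : v (algebraMap F E c - θ) = v θ := by
      refine le_antisymm (h6.trans (max_le (h5.trans hθ.2.le) le_rfl)) ?_
      by_contra h8
      push Not at h8
      have h9 := hL.ctx.nonarch (algebraMap F E c) (-(algebraMap F E c - θ))
      have h10 : algebraMap F E c + -(algebraMap F E c - θ) = θ := by ring
      rw [h10, v.map_neg] at h9
      exact absurd h9 (not_le.2 (max_lt (lt_of_le_of_lt h5 hθ.2) h8))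
    rw [eval_pow, eval_sub, eval_X, eval_C, map_pow, map_pow, v.map_neg, h7]
  rw [Finset.prod_congr rfl h4, ← map_prod, ← map_mul] at h1
  exact h1

end

section

variable {F L Ω K E : Type} [Field F] [IsAlgClosed F] [Field L] [Algebra F[X] L] [Field Ω]
  [Algebra L Ω] [IsAlgClosure L Ω] [Field K] [Algebra L K] [Algebra F[X] K] [IsScalarTower F[X] L K]
  [Field E] [Algebra K E] [Algebra L E] [IsScalarTower L K E] [Algebra F E] [IsAlgClosure K E]
  {ℓ : ℕ} {s : F} {v : AbsoluteValue E ℝ} {ζ : F} {f : L[X]}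
  [hG : IsGood ℓ (f.map (algebraMap L Ω))]
  [hG' : IsGood ℓ ((f.map (algebraMap L K)).map (algebraMap K E))]

/-- The local form of a cocycle `b` whose divisors are killed by `1 - Z`. -/
theorem cluster_vertU (hℓ : ℓ.Prime) (hℓF : (ℓ : F) ≠ 0) (hζ : IsPrimitiveRoot ζ ℓ)
    (hL : LocF F K s v) (hsep : ((f.map (algebraMap L K)).map (algebraMap K E)).Separable)
    (hlead : v (cInf v ((f.map (algebraMap L K)).map (algebraMap K E))) = 1)
    (b : (Ω ≃ₐ[L] Ω) → (Ω ≃ₐ[L] Ω) → (FunField ℓ (f.map (algebraMap L Ω)))ˣ) (hb : ICoc b)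
    (hu : IUnr F b) (C : (Ω ≃ₐ[L] Ω) → (Pt ℓ (f.map (algebraMap L Ω)) →₀ ℤ))
    (hC : IDiv b C) (hz : (algebraMap L Ω (algebraMap F[X] L (Polynomial.C ζ))) ^ ℓ = 1)
    (hZ : ∀ g, zJ (algebraMap L Ω (algebraMap F[X] L (Polynomial.C ζ))) hz (cl (C g)) =
      (cl (C g) : Jac ℓ (f.map (algebraMap L Ω))))
    (j : Ω →ₐ[L] E) (ρ : (E ≃ₐ[K] E) →* (Ω ≃ₐ[L] Ω)) (hρ : ∀ g z, j (ρ g z) = g (j z)) :
    ∃ (Q : Jac ℓ ((f.map (algebraMap L K)).map (algebraMap K E))) (e : (E ≃ₐ[K] E) → E → ℤ),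
      (∀ g, jacMap ℓ (j : Ω →+* E) (map_jj f K j) (cl (C (ρ g))) = symJ (gs _ g) Q - Q + rm (e g)) ∧
      ∀ g r, (ℓ : ℤ) ∣ ∑ θ ∈ nr F v ((f.map (algebraMap L K)).map (algebraMap K E)) r, e g θ := by
  have hNZ : NeZero ℓ := ⟨hℓ.ne_zero⟩
  -- the root of unity
  set ζL : L := algebraMap F[X] L (Polynomial.C ζ) with hζL
  have hzL : IsPrimitiveRoot ζL ℓ :=
    hζ.map_of_injective (f := (algebraMap F[X] L).comp Polynomial.C) (RingHom.injective _)
  have hzE : IsPrimitiveRoot (algebraMap L E ζL) ℓ :=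
    hzL.map_of_injective (algebraMap L E).injective
  have hzF : algebraMap F E ζ = algebraMap L E ζL := by
    rw [hL.compat, IsScalarTower.algebraMap_apply F[X] L K,
      ← IsScalarTower.algebraMap_apply L K E]
  have hj : (j : Ω →+* E) (algebraMap L Ω ζL) = algebraMap L E ζL := j.commutes ζL
  have hzj : ((j : Ω →+* E) (algebraMap L Ω ζL)) ^ ℓ = 1 := by
    rw [hj]
    exact hzE.pow_eq_one
  obtain ⟨Q, e, h1, h2⟩ := cluster_baseU (s := s) (v := v) (ζ := ζ) hℓ hℓF hζ hL hsep hlead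
    (hb.bv j ρ hρ) (hC.bv j ρ hρ) hNZ (lunr_of_iunr j ρ hρ s hu) (by rw [hzF]; exact hzE.pow_eq_one) 0 (by
      intro g
      rw [map_zero, sub_zero, cl_Cv, G04_zJ_congr (hzF.trans hj.symm) (by rw [hzF]; exact hzE.pow_eq_one) hzj,
        zJ_jacMap (j : Ω →+* E) (map_jj f K j) _ hz hzj, hZ, sub_self])
  refine ⟨Q, e, fun g => ?_, h2⟩
  rw [← h1, cl_Cv]

end

section

variable {F L Ω K M : Type} [Field F] [IsAlgClosed F] [Field L] [Algebra F[X] L] [Field Ω] [Algebra L Ω]
  [IsAlgClosure L Ω] [Field K] [Algebra F[X] K] [Field M] [Algebra K M] [IsAlgClosure K M] [Algebra F M]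
  {ℓ : ℕ} {ζ : F} {f : L[X]} [hG : IsGood ℓ (f.map (algebraMap L Ω))]

/-- The local form, for homomorphisms. -/
theorem cluster_auxU (j : Ω →+* M) (i : L →+* K) (hi : ∀ z, algebraMap K M (i z) = j (algebraMap L Ω z))
    (hp : ∀ p : F[X], i (algebraMap F[X] L p) = algebraMap F[X] K p) (hℓ : ℓ.Prime)
    (hℓF : (ℓ : F) ≠ 0) (hζ : IsPrimitiveRoot ζ ℓ) {s : F} {v : AbsoluteValue M ℝ} (hL : LocF F K s v)
    [hG' : IsGood ℓ ((f.map i).map (algebraMap K M))]
    (hsep : ((f.map i).map (algebraMap K M)).Separable)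
    (hlead : v (cInf v ((f.map i).map (algebraMap K M))) = 1)
    (b : (Ω ≃ₐ[L] Ω) → (Ω ≃ₐ[L] Ω) → (FunField ℓ (f.map (algebraMap L Ω)))ˣ) (hb : ICoc b)
    (hu : IUnr F b) (C : (Ω ≃ₐ[L] Ω) → (Pt ℓ (f.map (algebraMap L Ω)) →₀ ℤ)) (hC : IDiv b C)
    (hz : (algebraMap L Ω (algebraMap F[X] L (Polynomial.C ζ))) ^ ℓ = 1)
    (hZ : ∀ g, zJ (algebraMap L Ω (algebraMap F[X] L (Polynomial.C ζ))) hz (cl (C g)) =
      (cl (C g) : Jac ℓ (f.map (algebraMap L Ω)))) :
    ∃ Q : Jac ℓ ((f.map i).map (algebraMap K M)), ∀ (g : M ≃ₐ[K] M) (g' : Ω ≃ₐ[L] Ω), (∀ x, j (g' x) = g (j x)) →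
      ∀ hpol : (f.map (algebraMap L Ω)).map j = (f.map i).map (algebraMap K M),
      ∃ e : M → ℤ, jacMap ℓ j hpol (cl (C g')) =
          symJ (gs (f.map i) g) Q - Q + (rm e : Jac ℓ ((f.map i).map (algebraMap K M))) ∧
        ∀ r : F, (ℓ : ℤ) ∣ ∑ θ ∈ nr F v ((f.map i).map (algebraMap K M)) r, e θ := by
  let _ : Algebra L K := i.toAlgebra
  have : IsScalarTower F[X] L K := IsScalarTower.of_algebraMap_eq fun p => (hp p).symm
  let _ : Algebra L M := (j.comp (algebraMap L Ω)).toAlgebra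
  have : IsScalarTower L K M := IsScalarTower.of_algebraMap_eq fun z => (hi z).symm
  let j' : Ω →ₐ[L] M := { j with commutes' := fun _ => rfl }
  obtain ⟨ρ, hρ⟩ := exists_rho (K := K) j'
  have hG'' : IsGood ℓ ((f.map (algebraMap L K)).map (algebraMap K M)) := hG'
  obtain ⟨Q, e, h1, h2⟩ := cluster_vertU (K := K) hℓ hℓF hζ hL hsep hlead b hb hu C hC hz hZ j' ρ hρ
  refine ⟨Q, fun g g' hg hpol => ⟨e g, ?_, h2 g⟩⟩
  have hgg : g' = ρ g := by
    ext z
    apply (j : Ω →+* M).injective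
    rw [hg]
    exact (hρ g z).symm
  subst hgg
  exact h1 g

end

end Pool.Agent.Lib.MP_89bcae_ag.Zu
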